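import Mathlib

/-!
# Paths in dense relations

* `exists_core`: a finite relation `H` with more than `D * (|fst H| + |snd H|)` elements contains a
  nonempty relation all of whose degrees (on both sides) are larger than `D`.
* `greedy`: greedy construction of long lists.
* `cycle_of_list`: a closed list of length `n` without repetition gives a copy of `cycleGraph n`.
-/

set_option autoImplicit false

namespace Pool.Agent.TH602.Turan

open Finset SimpleGraph

section Core

variable {A B : Type*} [DecidableEq A] [DecidableEq B]

/-- Removing vertices of small degree. -/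
theorem exists_core (D : ℕ) : ∀ H : Finset (A × B),
    D * (#(H.image Prod.fst) + #(H.image Prod.snd)) < #H →
    ∃ K ⊆ H, K.Nonempty ∧ (∀ e ∈ K, D < #(K.filter fun e' => e'.1 = e.1)) ∧
      (∀ e ∈ K, D < #(K.filter fun e' => e'.2 = e.2)) := by
  intro H
  induction H using Finset.strongInduction with
  | H H ih =>
    intro hH
    by_cases h1 : ∀ e ∈ H, D < #(H.filter fun e' => e'.1 = e.1)
    · by_cases h2 : ∀ e ∈ H, D < #(H.filter fun e' => e'.2 = e.2)
      · exact ⟨H, Subset.rfl, card_pos.1 (by omega), h1, h2⟩
      · push Not at h2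
        obtain ⟨e, he, hD⟩ := h2
        have hss : H.filter (fun e' => e'.2 ≠ e.2) ⊂ H :=
          filter_ssubset.2 ⟨e, he, by simp⟩
        have hcard : #(H.filter fun e' => e'.2 = e.2) + #(H.filter fun e' => e'.2 ≠ e.2) = #H :=
          card_filter_add_card_filter_not _
        have h3 : #((H.filter fun e' => e'.2 ≠ e.2).image Prod.fst) ≤ #(H.image Prod.fst) :=
          card_le_card (image_subset_image (filter_subset _ _))
        have h4 : #((H.filter fun e' => e'.2 ≠ e.2).image Prod.snd) < #(H.image Prod.snd) := by
          apply card_lt_card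
          rw [ssubset_iff_of_subset (image_subset_image (filter_subset _ _))]
          refine ⟨e.2, mem_image_of_mem _ he, ?_⟩
          simp
        obtain ⟨K, hK, h⟩ := ih _ hss (by
          have : D * (#((H.filter fun e' => e'.2 ≠ e.2).image Prod.fst) +
              #((H.filter fun e' => e'.2 ≠ e.2).image Prod.snd)) + D ≤
              D * (#(H.image Prod.fst) + #(H.image Prod.snd)) := by
            rw [← Nat.mul_succ]
            exact Nat.mul_le_mul_left _ (by omega)
          omega)
        exact ⟨K, hK.trans hss.1, h⟩
    · push Not at h1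
      obtain ⟨e, he, hD⟩ := h1
      have hss : H.filter (fun e' => e'.1 ≠ e.1) ⊂ H :=
        filter_ssubset.2 ⟨e, he, by simp⟩
      have hcard : #(H.filter fun e' => e'.1 = e.1) + #(H.filter fun e' => e'.1 ≠ e.1) = #H :=
        card_filter_add_card_filter_not _
      have h3 : #((H.filter fun e' => e'.1 ≠ e.1).image Prod.snd) ≤ #(H.image Prod.snd) :=
        card_le_card (image_subset_image (filter_subset _ _))
      have h4 : #((H.filter fun e' => e'.1 ≠ e.1).image Prod.fst) < #(H.image Prod.fst) := by
        apply card_lt_card
        rw [ssubset_iff_of_subset (image_subset_image (filter_subset _ _))]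
        refine ⟨e.1, mem_image_of_mem _ he, ?_⟩
        simp
      obtain ⟨K, hK, h⟩ := ih _ hss (by
        have : D * (#((H.filter fun e' => e'.1 ≠ e.1).image Prod.fst) +
            #((H.filter fun e' => e'.1 ≠ e.1).image Prod.snd)) + D ≤
            D * (#(H.image Prod.fst) + #(H.image Prod.snd)) := by
          rw [← Nat.mul_succ]
          exact Nat.mul_le_mul_left _ (by omega)
        omega)
      exact ⟨K, hK.trans hss.1, h⟩

end Core

section Greedy

variable {V : Type*} [DecidableEq V]

/-- Greedy construction of a list. `g` is the footprint of a vertex. -/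
theorem greedy (g : V → Finset V) (c s : ℕ) (hg : ∀ v, #(g v) ≤ c) (P : Bool → V → Prop)
    (R : V → V → Prop)
    (h : ∀ b v, P b v → ∀ S : Finset V, #S ≤ s → ∃ w, Disjoint (g w) S ∧ P (!b) w ∧ R w v)
    (b₀ : Bool) (v₀ : V) (h₀ : P b₀ v₀) : ∀ n, c * n ≤ s →
    ∃ (a : V) (l : List V), (a :: l).length = n + 1 ∧
      (a :: l).Pairwise (fun u v => Disjoint (g u) (g v)) ∧ (a :: l).IsChain R ∧
      (a :: l).getLast (by simp) = v₀ ∧ P (not^[n] b₀) a ∧ ∀ v ∈ a :: l, ∃ b, P b v := by
  intro n
  induction n with
  | zero =>
    intro _
    exact ⟨v₀, [], by simp, by simp, by simp, by simp, by simpa using h₀,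
      fun v hv => ⟨b₀, by simp at hv; exact hv ▸ h₀⟩⟩
  | succ n ih =>
    intro hn
    obtain ⟨a, l, hlen, hpw, hch, hlast, hP, hall⟩ := ih (by nlinarith)
    have hS : #((a :: l).toFinset.biUnion g) ≤ s := by
      refine (card_biUnion_le_card_mul _ _ c fun v _ => hg v).trans ?_
      have : #(a :: l).toFinset ≤ n + 1 := hlen ▸ List.toFinset_card_le _
      calc #(a :: l).toFinset * c ≤ (n + 1) * c := Nat.mul_le_mul_right _ this
        _ = c * (n + 1) := Nat.mul_comm _ _
        _ ≤ s := hn
    obtain ⟨w, hw, hPw, hRw⟩ := h _ _ hP _ hS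
    refine ⟨w, a :: l, by simp at hlen ⊢; omega, ?_, ?_, ?_, ?_, ?_⟩
    · rw [List.pairwise_cons]
      refine ⟨fun u hu => ?_, hpw⟩
      rw [disjoint_biUnion_right] at hw
      exact hw u (by simpa using hu)
    · exact List.IsChain.cons_cons hRw hch
    · rw [List.getLast_cons (by simp)]
      exact hlast
    · rw [Function.iterate_succ_apply']
      exact hPw
    · intro v hv
      rcases List.mem_cons.1 hv with rfl | hv
      · exact ⟨_, hPw⟩
      · exact hall v hv

end Greedy

section Cycle

variable {V : Type*} {G : SimpleGraph V}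

/-- A closed list without repetition is a cycle. -/
theorem cycle_of_list {n : ℕ} (l : List V) (hl : l.length = n) (hnd : l.Nodup)
    (hch : l.IsChain G.Adj) (hne : l ≠ [])
    (hclose : G.Adj (l.getLast hne) (l.head hne)) : cycleGraph n ⊑ G := by
  subst hl
  have hpos : 0 < l.length := List.length_pos_iff.2 hne
  have key : ∀ i j : Fin l.length, (j - i).val = 1 → G.Adj l[i] l[j] := by
    intro i j hij
    have hi := i.2
    have hj := j.2
    rw [Fin.sub_def] at hij
    simp only at hij
    by_cases hlt : i.1 + 1 < l.length
    · have hji : j.1 = i.1 + 1 := by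
        rcases Nat.lt_or_ge (l.length - i.1 + j.1) l.length with h | h
        · rw [Nat.mod_eq_of_lt h] at hij
          omega
        · rw [Nat.mod_eq_sub_mod h, Nat.mod_eq_of_lt (by omega)] at hij
          omega
      have := List.isChain_iff_getElem.1 hch i.1 hlt
      simpa [hji] using this
    · have hi' : i.1 = l.length - 1 := by omega
      have hji : j.1 = 0 := by
        rw [hi'] at hij
        have h1 : l.length - (l.length - 1) + j.1 = 1 + j.1 := by omega
        rw [h1] at hij
        rcases Nat.lt_or_ge (1 + j.1) l.length with h | h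
        · rw [Nat.mod_eq_of_lt h] at hij
          omega
        · have : 1 + j.1 = l.length := by omega
          rw [this, Nat.mod_self] at hij
          omega
      rw [List.getLast_eq_getElem, List.head_eq_getElem] at hclose
      simpa [hi', hji] using hclose
  refine ⟨⟨⟨fun i => l[i], ?_⟩, ?_⟩⟩
  · intro i j hij
    rw [cycleGraph_adj'] at hij
    rcases hij with h | h
    · exact (key _ _ h).symm
    · exact key _ _ h
  · intro i j hij
    exact Fin.ext ((List.Nodup.getElem_inj_iff hnd).1 hij)

end Cycle

end Pool.Agent.TH602.Turan
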