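import Mathlib

/-!
# Triple systems closed under meets: local part

`H ⊆ X × Y × Z` is a tripartite triple system. `Sparse s H`: no `s` triples span at most `s + 3`
vertices.
-/

set_option autoImplicit false

namespace Pool.Agent.TH602.Turan

open Finset

/-- No `s` triples of `H` span at most `s + 3` vertices. -/
def SparseTriples {X Y Z : Type*} [DecidableEq X] [DecidableEq Y] [DecidableEq Z]
    (s : ℕ) (H : Finset (X × Y × Z)) : Prop :=
  ∀ T ⊆ H, #T = s → s + 3 < #(T.image fun e => e.1) + #(T.image fun e => e.2.1) +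
    #(T.image fun e => e.2.2)

/-- `H` is closed under componentwise meets. -/
def MeetClosed {W : Type*} [SemilatticeInf W] (H : Finset W) : Prop :=
  ∀ e ∈ H, ∀ e' ∈ H, e ⊓ e' ∈ H

section

variable {X Y Z : Type*} [DecidableEq X] [DecidableEq Y] [DecidableEq Z]

/-- A set with at least `s` triples and at most `s + 3` vertices is enough. -/
theorem SparseTriples.lt {s : ℕ} {H : Finset (X × Y × Z)} (h : SparseTriples s H)
    (T : Finset (X × Y × Z)) (hT : T ⊆ H) (hs : s ≤ #T) :
    s + 3 < #(T.image fun e => e.1) + #(T.image fun e => e.2.1) + #(T.image fun e => e.2.2) := by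
  obtain ⟨T', hT', hc⟩ := exists_subset_card_eq hs
  have h1 := h T' (hT'.trans hT) hc
  have h2 := card_le_card (image_subset_image (f := fun e : X × Y × Z => e.1) hT')
  have h3 := card_le_card (image_subset_image (f := fun e : X × Y × Z => e.2.1) hT')
  have h4 := card_le_card (image_subset_image (f := fun e : X × Y × Z => e.2.2) hT')
  omega

/-- Rotation of the three coordinates. -/
def rot (e : X × Y × Z) : Y × Z × X := (e.2.1, e.2.2, e.1)

omit [DecidableEq X] [DecidableEq Y] [DecidableEq Z] in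
theorem rot_injective : Function.Injective (rot : X × Y × Z → Y × Z × X) := by
  rintro ⟨a, b, c⟩ ⟨a', b', c'⟩ h
  simp only [rot, Prod.mk.injEq] at h
  simp [h]

theorem SparseTriples.rot {s : ℕ} {H : Finset (X × Y × Z)} (h : SparseTriples s H) :
    SparseTriples s (H.image Turan.rot) := by
  intro T hT hs
  have h1 : ∃ T' ⊆ H, T'.image Turan.rot = T := by
    rw [← subset_image_iff]
    exact_mod_cast hT
  obtain ⟨T', hT', rfl⟩ := h1
  rw [card_image_of_injective _ rot_injective] at hs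
  have h2 := h T' hT' hs
  rw [image_image, image_image, image_image]
  have e1 : (fun e : Y × Z × X => e.1) ∘ (Turan.rot : X × Y × Z → _) = fun e => e.2.1 := rfl
  have e2 : (fun e : Y × Z × X => e.2.1) ∘ (Turan.rot : X × Y × Z → _) = fun e => e.2.2 := rfl
  have e3 : (fun e : Y × Z × X => e.2.2) ∘ (Turan.rot : X × Y × Z → _) = fun e => e.1 := rfl
  rw [e1, e2, e3]
  omega

/-- Pairs have small codegree. -/
theorem SparseTriples.codeg_xy {s : ℕ} {H : Finset (X × Y × Z)} (h : SparseTriples s H) (x : X)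
    (y : Y) (A : Finset (X × Y × Z)) (hA : A ⊆ H) (hAxy : ∀ e ∈ A, e.1 = x ∧ e.2.1 = y) :
    #A < s ∨ #A = 0 := by
  by_contra hcon
  push Not at hcon
  obtain ⟨A', hA', hc⟩ := exists_subset_card_eq hcon.1
  have h0 := h A' (hA'.trans hA) hc
  have h1 : #(A'.image fun e => e.1) ≤ 1 := by
    rw [card_le_one]
    intro a ha b hb
    rw [mem_image] at ha hb
    obtain ⟨a, ha, rfl⟩ := ha
    obtain ⟨b, hb, rfl⟩ := hb
    rw [(hAxy a (hA' ha)).1, (hAxy b (hA' hb)).1]
  have h2 : #(A'.image fun e => e.2.1) ≤ 1 := by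
    rw [card_le_one]
    intro a ha b hb
    rw [mem_image] at ha hb
    obtain ⟨a, ha, rfl⟩ := ha
    obtain ⟨b, hb, rfl⟩ := hb
    rw [(hAxy a (hA' ha)).2, (hAxy b (hA' hb)).2]
  have h3 : #(A'.image fun e => e.2.2) ≤ s := hc ▸ card_image_le
  omega

theorem SparseTriples.codeg_xz {s : ℕ} {H : Finset (X × Y × Z)} (h : SparseTriples s H) (x : X)
    (z : Z) (A : Finset (X × Y × Z)) (hA : A ⊆ H) (hAxy : ∀ e ∈ A, e.1 = x ∧ e.2.2 = z) :
    #A < s ∨ #A = 0 := by
  by_contra hcon
  push Not at hcon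
  obtain ⟨A', hA', hc⟩ := exists_subset_card_eq hcon.1
  have h0 := h A' (hA'.trans hA) hc
  have h1 : #(A'.image fun e => e.1) ≤ 1 := by
    rw [card_le_one]
    intro a ha b hb
    rw [mem_image] at ha hb
    obtain ⟨a, ha, rfl⟩ := ha
    obtain ⟨b, hb, rfl⟩ := hb
    rw [(hAxy a (hA' ha)).1, (hAxy b (hA' hb)).1]
  have h2 : #(A'.image fun e => e.2.2) ≤ 1 := by
    rw [card_le_one]
    intro a ha b hb
    rw [mem_image] at ha hb
    obtain ⟨a, ha, rfl⟩ := ha
    obtain ⟨b, hb, rfl⟩ := hb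
    rw [(hAxy a (hA' ha)).2, (hAxy b (hA' hb)).2]
  have h3 : #(A'.image fun e => e.2.1) ≤ s := hc ▸ card_image_le
  omega

theorem SparseTriples.codeg_yz {s : ℕ} {H : Finset (X × Y × Z)} (h : SparseTriples s H) (y : Y)
    (z : Z) (A : Finset (X × Y × Z)) (hA : A ⊆ H) (hAxy : ∀ e ∈ A, e.2.1 = y ∧ e.2.2 = z) :
    #A < s ∨ #A = 0 := by
  by_contra hcon
  push Not at hcon
  obtain ⟨A', hA', hc⟩ := exists_subset_card_eq hcon.1
  have h0 := h A' (hA'.trans hA) hc
  have h1 : #(A'.image fun e => e.2.1) ≤ 1 := by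
    rw [card_le_one]
    intro a ha b hb
    rw [mem_image] at ha hb
    obtain ⟨a, ha, rfl⟩ := ha
    obtain ⟨b, hb, rfl⟩ := hb
    rw [(hAxy a (hA' ha)).1, (hAxy b (hA' hb)).1]
  have h2 : #(A'.image fun e => e.2.2) ≤ 1 := by
    rw [card_le_one]
    intro a ha b hb
    rw [mem_image] at ha hb
    obtain ⟨a, ha, rfl⟩ := ha
    obtain ⟨b, hb, rfl⟩ := hb
    rw [(hAxy a (hA' ha)).2, (hAxy b (hA' hb)).2]
  have h3 : #(A'.image fun e => e.1) ≤ s := hc ▸ card_image_le
  omega

/-- Two vertices `x ≠ x'` with the same `s` pairs. -/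
theorem SparseTriples.pairs_x {s : ℕ} {H : Finset (X × Y × Z)} (h : SparseTriples s H) (x x' : X)
    (hx : x ≠ x') (P : Finset (X × Y × Z)) (hP : ∀ e ∈ P, e.1 = x ∧ e ∈ H ∧ (x', e.2) ∈ H) :
    #P < s ∨ #P = 0 := by
  by_contra hcon
  push Not at hcon
  have hq : (s + 1) / 2 ≤ #P := by omega
  obtain ⟨P', hP', hc⟩ := exists_subset_card_eq hq
  have hdisj : Disjoint P' (P'.image fun e => (x', e.2)) := by
    rw [disjoint_left]
    intro e he he'
    rw [mem_image] at he'
    obtain ⟨e', he', rfl⟩ := he'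
    exact hx (hP _ (hP' he)).1.symm
  have hinj : Set.InjOn (fun e : X × Y × Z => (x', e.2)) P' := by
    intro a ha b hb hab
    simp only [Prod.mk.injEq, true_and] at hab
    exact Prod.ext ((hP a (hP' ha)).1.trans (hP b (hP' hb)).1.symm) hab
  have h1 := h.lt (P' ∪ P'.image fun e => (x', e.2)) (by
    intro e he
    rw [mem_union, mem_image] at he
    rcases he with he | ⟨e', he', rfl⟩
    · exact (hP e (hP' he)).2.1
    · exact (hP e' (hP' he')).2.2) (by
    rw [card_union_of_disjoint hdisj, card_image_of_injOn hinj, hc]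
    omega)
  have h2 : #((P' ∪ P'.image fun e => (x', e.2)).image fun e => e.1) ≤ 2 := by
    refine (card_le_card (t := {x, x'}) fun a ha => ?_).trans card_le_two
    rw [mem_image] at ha
    obtain ⟨e, he, rfl⟩ := ha
    rw [mem_union, mem_image] at he
    rcases he with he | ⟨e', he', rfl⟩
    · rw [(hP e (hP' he)).1]; simp
    · simp
  have h3 : #((P' ∪ P'.image fun e => (x', e.2)).image fun e => e.2.1) ≤ (s + 1) / 2 := by
    rw [← hc]
    refine (card_le_card (t := P'.image fun e => e.2.1) fun a ha => ?_).trans card_image_le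
    rw [mem_image] at ha ⊢
    obtain ⟨e, he, rfl⟩ := ha
    rw [mem_union, mem_image] at he
    rcases he with he | ⟨e', he', rfl⟩
    · exact ⟨e, he, rfl⟩
    · exact ⟨e', he', rfl⟩
  have h4 : #((P' ∪ P'.image fun e => (x', e.2)).image fun e => e.2.2) ≤ (s + 1) / 2 := by
    rw [← hc]
    refine (card_le_card (t := P'.image fun e => e.2.2) fun a ha => ?_).trans card_image_le
    rw [mem_image] at ha ⊢
    obtain ⟨e, he, rfl⟩ := ha
    rw [mem_union, mem_image] at he
    rcases he with he | ⟨e', he', rfl⟩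
    · exact ⟨e, he, rfl⟩
    · exact ⟨e', he', rfl⟩
  omega

/-- Two vertices `y ≠ y'` with the same `s` pairs. -/
theorem SparseTriples.pairs_y {s : ℕ} {H : Finset (X × Y × Z)} (h : SparseTriples s H) (y y' : Y)
    (hy : y ≠ y') (P : Finset (X × Y × Z))
    (hP : ∀ e ∈ P, e.2.1 = y ∧ e ∈ H ∧ (e.1, y', e.2.2) ∈ H) : #P < s ∨ #P = 0 := by
  have := h.rot.pairs_x y y' hy (P.image Turan.rot) (fun e he => by
    rw [mem_image] at he
    obtain ⟨e, he, rfl⟩ := he
    refine ⟨(hP e he).1, mem_image_of_mem _ (hP e he).2.1, ?_⟩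
    exact mem_image.2 ⟨_, (hP e he).2.2, rfl⟩)
  rwa [card_image_of_injective _ rot_injective] at this

end

end Pool.Agent.TH602.Turan
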