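import Pool.Agent.TH602.Turan.BesLocal

/-!
# Triple systems closed under meets: counting quadruples
-/

set_option autoImplicit false

namespace Pool.Agent.TH602.Turan

open Finset

/-- A popular meet. -/
theorem exists_popular {W : Type*} [DecidableEq W] [SemilatticeInf W] (L K : Finset W) (C : ℕ)
    (hL : L.Nonempty) (hmeet : ∀ h ∈ L, ∀ h' ∈ L, h ⊓ h' ∈ K) (D : W → Finset W)
    (hD : ∀ h, ∀ g ∈ K, g ≤ h → g ∈ D h) (hC : ∀ h ∈ L, #(D h) ≤ C) :
    ∃ g ∈ K, #L ^ 2 ≤ C ^ 2 * #((L ×ˢ L).filter fun p => p.1 ⊓ p.2 = g) := by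
  classical
  have hK : K.Nonempty := by
    obtain ⟨h, hh⟩ := hL
    exact ⟨_, hmeet h hh h hh⟩
  obtain ⟨g, hg, hmax⟩ := exists_max_image K
    (fun g => #((L ×ˢ L).filter fun p => p.1 ⊓ p.2 = g)) hK
  refine ⟨g, hg, ?_⟩
  set M := #((L ×ˢ L).filter fun p => p.1 ⊓ p.2 = g) with hM
  have h1 : #L ^ 2 = ∑ g' ∈ K, #((L ×ˢ L).filter fun p => p.1 ⊓ p.2 = g') := by
    rw [sq, ← card_product]
    refine card_eq_sum_card_fiberwise fun p hp => ?_
    rw [mem_coe, mem_product] at hp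
    exact hmeet _ hp.1 _ hp.2
  have h2 : ∀ g' ∈ K, #((L ×ˢ L).filter fun p => p.1 ⊓ p.2 = g') ≤ #(L.filter fun h => g' ≤ h) ^ 2 := by
    intro g' _
    rw [sq, ← card_product]
    refine card_le_card fun p hp => ?_
    rw [mem_filter, mem_product] at hp
    rw [mem_product, mem_filter, mem_filter]
    exact ⟨⟨hp.1.1, hp.2 ▸ inf_le_left⟩, ⟨hp.1.2, hp.2 ▸ inf_le_right⟩⟩
  have h3 : ∑ g' ∈ K, #(L.filter fun h => g' ≤ h) ≤ #L * C := by
    have h4 := sum_card_bipartiteAbove_eq_sum_card_bipartiteBelow (s := K) (t := L)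
      (r := fun g' h => g' ≤ h)
    have h5 : ∑ g' ∈ K, #(L.filter fun h => g' ≤ h) = ∑ h ∈ L, #(K.filter fun g' => g' ≤ h) := h4
    rw [h5]
    calc ∑ h ∈ L, #(K.filter fun g' => g' ≤ h) ≤ ∑ _h ∈ L, C := sum_le_sum fun h hh =>
          (card_le_card (t := D h) fun g' hg' =>
            hD h g' (mem_filter.1 hg').1 (mem_filter.1 hg').2).trans (hC h hh)
      _ = #L * C := by rw [sum_const, smul_eq_mul]
  have h6 : (#L : ℝ) ^ 2 ≤ Real.sqrt M * (#L * C) := by
    have h7 : ((#L ^ 2 : ℕ) : ℝ) = ∑ g' ∈ K, (#((L ×ˢ L).filter fun p => p.1 ⊓ p.2 = g') : ℝ) := by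
      rw [h1]; push_cast; rfl
    push_cast at h7
    rw [h7]
    calc ∑ g' ∈ K, (#((L ×ˢ L).filter fun p => p.1 ⊓ p.2 = g') : ℝ)
        ≤ ∑ g' ∈ K, Real.sqrt M * (#(L.filter fun h => g' ≤ h) : ℝ) := by
          refine sum_le_sum fun g' hg' => ?_
          set c := #((L ×ˢ L).filter fun p => p.1 ⊓ p.2 = g')
          have h8 : (c : ℝ) ≤ M := by exact_mod_cast hmax g' hg'
          have h9 : (c : ℝ) ≤ (#(L.filter fun h => g' ≤ h) : ℝ) ^ 2 := by
            exact_mod_cast h2 g' hg'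
          calc (c : ℝ) = Real.sqrt c * Real.sqrt c := (Real.mul_self_sqrt (Nat.cast_nonneg _)).symm
            _ ≤ Real.sqrt M * (#(L.filter fun h => g' ≤ h) : ℝ) := by
                refine mul_le_mul (Real.sqrt_le_sqrt h8) ?_ (Real.sqrt_nonneg _)
                  (Real.sqrt_nonneg _)
                rw [Real.sqrt_le_left (Nat.cast_nonneg _)]
                exact h9
      _ = Real.sqrt M * ((∑ g' ∈ K, #(L.filter fun h => g' ≤ h) : ℕ) : ℝ) := by
          rw [← mul_sum]; push_cast; rfl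
      _ ≤ Real.sqrt M * (#L * C) := by
          refine mul_le_mul_of_nonneg_left ?_ (Real.sqrt_nonneg _)
          exact_mod_cast h3
  have hLpos : (0 : ℝ) < #L := by exact_mod_cast card_pos.2 hL
  have h10 : (#L : ℝ) ≤ Real.sqrt M * C := by
    have : (#L : ℝ) * #L ≤ #L * (Real.sqrt M * C) := by nlinarith
    exact le_of_mul_le_mul_left this hLpos
  have h11 : (#L : ℝ) ^ 2 ≤ (C : ℝ) ^ 2 * M := by
    calc (#L : ℝ) ^ 2 ≤ (Real.sqrt M * C) ^ 2 := pow_le_pow_left₀ hLpos.le h10 2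
      _ = (C : ℝ) ^ 2 * M := by rw [mul_pow, Real.sq_sqrt (Nat.cast_nonneg _)]; ring
  exact_mod_cast h11

variable {X Y Z : Type*} [DecidableEq X] [DecidableEq Y] [DecidableEq Z]
  [SemilatticeInf X] [SemilatticeInf Y] [SemilatticeInf Z]

/-- The triples of `H` below `h` with the same first vertex. -/
noncomputable def down (H : Finset (X × Y × Z)) (h : X × Y × Z) : Finset (X × Y × Z) := by
  classical exact H.filter fun e => e.1 = h.1 ∧ e ≤ h

theorem mem_down (H : Finset (X × Y × Z)) (h e : X × Y × Z) :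
    e ∈ down H h ↔ e ∈ H ∧ e.1 = h.1 ∧ e ≤ h := by
  simp [down]

theorem count_bound [Fintype X] [Fintype Y] [Fintype Z] {s C : ℕ} {H : Finset (X × Y × Z)}
    (hH : MeetClosed H) (hsp : SparseTriples s H) :
    #(H.filter fun h => #(down H h) < C) ^ 4 ≤
      Fintype.card X ^ 3 * (C ^ 4 * s ^ 5 * (Fintype.card Y ^ 2 * Fintype.card Z ^ 2)) := by
  classical
  rcases H.eq_empty_or_nonempty with rfl | ⟨e₀, -⟩
  · simp
  set L := H.filter fun h => #(down H h) < C with hLdef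
  let Lx : X → Finset (X × Y × Z) := fun x => L.filter fun e => e.1 = x
  let Hx : X → Finset (X × Y × Z) := fun x => H.filter fun e => e.1 = x
  have hpop : ∀ x, ∃ g, (Lx x).Nonempty → g ∈ Hx x ∧
      #(Lx x) ^ 2 ≤ C ^ 2 * #((Lx x ×ˢ Lx x).filter fun p => p.1 ⊓ p.2 = g) := by
    intro x
    by_cases hne : (Lx x).Nonempty
    · obtain ⟨g, hg, hg'⟩ := exists_popular (Lx x) (Hx x) C hne (fun h hh h' hh' => by
        simp only [Lx, Hx, mem_filter, hLdef] at hh hh' ⊢
        refine ⟨hH _ hh.1.1 _ hh'.1.1, ?_⟩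
        show h.1 ⊓ h'.1 = x
        rw [hh.2, hh'.2, inf_idem]) (fun h => if h.1 = x then down H h else Hx x)
        (fun h g hg hgh => by
          by_cases hx : h.1 = x
          · rw [if_pos hx, mem_down]
            simp only [Hx, mem_filter] at hg
            exact ⟨hg.1, hg.2.trans hx.symm, hgh⟩
          · rw [if_neg hx]; exact hg) (fun h hh => by
          simp only [Lx, mem_filter, hLdef] at hh
          rw [if_pos hh.2]
          exact hh.1.2.le)
      exact ⟨g, fun _ => ⟨hg, hg'⟩⟩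
    · exact ⟨e₀, fun h => absurd h hne⟩
  choose g hg using hpop
  let P : X → Finset ((X × Y × Z) × (X × Y × Z)) := fun x =>
    (Lx x ×ˢ Lx x).filter fun p => p.1 ⊓ p.2 = g x
  let R : X → Finset (Y × Y) := fun x => (P x).image fun p => (p.1.2.1, p.2.2.1)
  let S : X → Finset (Z × Z) := fun x => (P x).image fun p => (p.1.2.2, p.2.2.2)
  have hPL : ∀ x, ∀ p ∈ P x, p.1 ∈ Lx x ∧ p.2 ∈ Lx x ∧ p.1 ⊓ p.2 = g x := by
    intro x p hp
    rw [mem_filter, mem_product] at hp
    exact ⟨hp.1.1, hp.1.2, hp.2⟩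
  have hLH : ∀ x, ∀ e ∈ Lx x, e ∈ H ∧ e.1 = x := by
    intro x e he
    simp only [Lx, mem_filter, hLdef] at he
    exact ⟨he.1.1, he.2⟩
  have hPR : ∀ x, #(P x) ≤ s ^ 2 * #(R x) := by
    intro x
    refine card_le_mul_card_image (f := fun p : (X × Y × Z) × (X × Y × Z) => (p.1.2.1, p.2.2.1))
      (P x) (s ^ 2) fun q _ => ?_
    have h1 : ((P x).filter fun p => (p.1.2.1, p.2.2.1) = q) ⊆
        ((Lx x).filter fun e => e.2.1 = q.1) ×ˢ ((Lx x).filter fun e => e.2.1 = q.2) := by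
      intro p hp
      rw [mem_filter] at hp
      obtain ⟨h1, h2, -⟩ := hPL x p hp.1
      rw [mem_product]
      exact ⟨mem_filter.2 ⟨h1, by rw [← hp.2]⟩, mem_filter.2 ⟨h2, by rw [← hp.2]⟩⟩
    have h2 : ∀ y, #((Lx x).filter fun e => e.2.1 = y) ≤ s := by
      intro y
      have := hsp.codeg_xy x y ((Lx x).filter fun e => e.2.1 = y)
        (fun e he => (hLH x e (mem_filter.1 he).1).1)
        (fun e he => ⟨(hLH x e (mem_filter.1 he).1).2, (mem_filter.1 he).2⟩)
      omega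
    calc _ ≤ _ := card_le_card h1
      _ = _ := card_product _ _
      _ ≤ s * s := Nat.mul_le_mul (h2 _) (h2 _)
      _ = s ^ 2 := (sq s).symm
  have hPS : ∀ x, #(P x) ≤ s ^ 2 * #(S x) := by
    intro x
    refine card_le_mul_card_image (f := fun p : (X × Y × Z) × (X × Y × Z) => (p.1.2.2, p.2.2.2))
      (P x) (s ^ 2) fun q _ => ?_
    have h1 : ((P x).filter fun p => (p.1.2.2, p.2.2.2) = q) ⊆
        ((Lx x).filter fun e => e.2.2 = q.1) ×ˢ ((Lx x).filter fun e => e.2.2 = q.2) := by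
      intro p hp
      rw [mem_filter] at hp
      obtain ⟨h1, h2, -⟩ := hPL x p hp.1
      rw [mem_product]
      exact ⟨mem_filter.2 ⟨h1, by rw [← hp.2]⟩, mem_filter.2 ⟨h2, by rw [← hp.2]⟩⟩
    have h2 : ∀ z, #((Lx x).filter fun e => e.2.2 = z) ≤ s := by
      intro z
      have := hsp.codeg_xz x z ((Lx x).filter fun e => e.2.2 = z)
        (fun e he => (hLH x e (mem_filter.1 he).1).1)
        (fun e he => ⟨(hLH x e (mem_filter.1 he).1).2, (mem_filter.1 he).2⟩)
      omega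
    calc _ ≤ _ := card_le_card h1
      _ = _ := card_product _ _
      _ ≤ s * s := Nat.mul_le_mul (h2 _) (h2 _)
      _ = s ^ 2 := (sq s).symm
  have hdeg : ∀ x, #(Lx x) ^ 4 ≤ C ^ 4 * s ^ 4 * #(R x ×ˢ S x) := by
    intro x
    by_cases hne : (Lx x).Nonempty
    · have h1 := (hg x hne).2
      calc #(Lx x) ^ 4 = (#(Lx x) ^ 2) ^ 2 := by rw [← pow_mul]
        _ ≤ (C ^ 2 * #(P x)) ^ 2 := Nat.pow_le_pow_left h1 2
        _ = C ^ 4 * (#(P x) * #(P x)) := by ring
        _ ≤ C ^ 4 * ((s ^ 2 * #(R x)) * (s ^ 2 * #(S x))) :=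
            Nat.mul_le_mul_left _ (Nat.mul_le_mul (hPR x) (hPS x))
        _ = C ^ 4 * s ^ 4 * #(R x ×ˢ S x) := by rw [card_product]; ring
    · rw [not_nonempty_iff_eq_empty] at hne
      rw [hne]; simp
  have hsum : ∑ x, #(R x ×ˢ S x) ≤ s * (Fintype.card Y ^ 2 * Fintype.card Z ^ 2) := by
    have h1 : ∑ x, #(R x ×ˢ S x) =
        ∑ q : (Y × Y) × (Z × Z), #((univ : Finset X).filter fun x => q ∈ R x ×ˢ S x) := by
      have h2 := sum_card_bipartiteAbove_eq_sum_card_bipartiteBelow (s := (univ : Finset X))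
        (t := (univ : Finset ((Y × Y) × (Z × Z)))) (r := fun x q => q ∈ R x ×ˢ S x)
      refine Eq.trans (sum_congr rfl fun x _ => ?_) h2
      congr 1
      ext q
      simp [bipartiteAbove]
    rw [h1]
    calc ∑ q : (Y × Y) × (Z × Z), #((univ : Finset X).filter fun x => q ∈ R x ×ˢ S x)
        ≤ ∑ _q : (Y × Y) × (Z × Z), s := by
          refine sum_le_sum fun q _ => ?_
          let φ : X → X × Y × Z := fun x => (x, q.1.1 ⊓ q.1.2, q.2.1 ⊓ q.2.2)
          have hφ : Function.Injective φ := fun a b hab => congrArg Prod.fst hab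
          rw [← card_image_of_injective _ hφ]
          have := hsp.codeg_yz (q.1.1 ⊓ q.1.2) (q.2.1 ⊓ q.2.2)
            (((univ : Finset X).filter fun x => q ∈ R x ×ˢ S x).image φ) (fun e he => by
              rw [mem_image] at he
              obtain ⟨x, hx, rfl⟩ := he
              rw [mem_filter, mem_product] at hx
              obtain ⟨-, h3, h4⟩ := hx
              rw [mem_image] at h3 h4
              obtain ⟨p, hp, hpq⟩ := h3
              obtain ⟨p', hp', hpq'⟩ := h4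
              have h5 := hPL x p hp
              have h6 := hPL x p' hp'
              have h7 : g x ∈ Hx x := (hg x ⟨p.1, h5.1⟩).1
              have h8 : g x = φ x := by
                refine Prod.ext (mem_filter.1 h7).2 (Prod.ext ?_ ?_)
                · show (g x).2.1 = q.1.1 ⊓ q.1.2
                  rw [← h5.2.2, ← hpq]; rfl
                · show (g x).2.2 = q.2.1 ⊓ q.2.2
                  rw [← h6.2.2, ← hpq']; rfl
              rw [← h8]
              exact (mem_filter.1 h7).1) (fun e he => by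
              rw [mem_image] at he
              obtain ⟨x, hx, rfl⟩ := he
              exact ⟨rfl, rfl⟩)
          omega
      _ = s * (Fintype.card Y ^ 2 * Fintype.card Z ^ 2) := by
          rw [sum_const, card_univ, smul_eq_mul, Fintype.card_prod, Fintype.card_prod,
            Fintype.card_prod]
          ring
  have hLsum : #L = ∑ x, #(Lx x) :=
    card_eq_sum_card_fiberwise (f := fun e : X × Y × Z => e.1) fun _ _ => by simp
  calc #L ^ 4 = (∑ x, #(Lx x)) ^ (3 + 1) := by rw [hLsum]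
    _ ≤ Fintype.card X ^ 3 * ∑ x, #(Lx x) ^ (3 + 1) := by
        have := pow_sum_le_card_mul_sum_pow (s := (univ : Finset X)) (f := fun x => #(Lx x))
          (fun _ _ => Nat.zero_le _) 3
        simpa using this
    _ ≤ Fintype.card X ^ 3 * ∑ x, C ^ 4 * s ^ 4 * #(R x ×ˢ S x) :=
        Nat.mul_le_mul_left _ (sum_le_sum fun x _ => hdeg x)
    _ = Fintype.card X ^ 3 * (C ^ 4 * s ^ 4 * ∑ x, #(R x ×ˢ S x)) := by
        congr 1; rw [mul_sum]
    _ ≤ Fintype.card X ^ 3 * (C ^ 4 * s ^ 4 *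
          (s * (Fintype.card Y ^ 2 * Fintype.card Z ^ 2))) :=
        Nat.mul_le_mul_left _ (Nat.mul_le_mul_left _ hsum)
    _ = _ := by ring

theorem MeetClosed.rot {H : Finset (X × Y × Z)} (h : MeetClosed H) :
    MeetClosed (H.image Turan.rot) := by
  intro e he e' he'
  rw [mem_image] at he he'
  obtain ⟨a, ha, rfl⟩ := he
  obtain ⟨b, hb, rfl⟩ := he'
  exact mem_image.2 ⟨a ⊓ b, h a ha b hb, rfl⟩

/-- The bound. -/
theorem bes_bound [Fintype X] [Fintype Y] [Fintype Z] {s n : ℕ} (hs : 41 ≤ s)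
    (H : Finset (X × Y × Z)) (hH : MeetClosed H) (hsp : SparseTriples s H)
    (hX : Fintype.card X ≤ n) (hY : Fintype.card Y ≤ n) (hZ : Fintype.card Z ≤ n) :
    #H ^ 4 ≤ 1296 * s ^ 13 * n ^ 7 := by
  classical
  set C := s ^ 2 + s with hC
  set H' := H.image Turan.rot with hH'
  set H'' := H'.image Turan.rot with hH''
  have b1 := count_bound (C := C) hH hsp
  have b2 := count_bound (C := C) hH.rot hsp.rot
  have b3 := count_bound (C := C) hH.rot.rot hsp.rot.rot
  set K := C ^ 4 * s ^ 5 * n ^ 7 with hK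
  have hpow : ∀ a b c : ℕ, a ≤ n → b ≤ n → c ≤ n →
      a ^ 3 * (C ^ 4 * s ^ 5 * (b ^ 2 * c ^ 2)) ≤ K := by
    intro a b c ha hb hc
    calc a ^ 3 * (C ^ 4 * s ^ 5 * (b ^ 2 * c ^ 2))
        ≤ n ^ 3 * (C ^ 4 * s ^ 5 * (n ^ 2 * n ^ 2)) := by gcongr
      _ = K := by rw [hK]; ring
  have c1 := b1.trans (hpow _ _ _ hX hY hZ)
  have c2 := b2.trans (hpow _ _ _ hY hZ hX)
  have c3 := b3.trans (hpow _ _ _ hZ hX hY)
  set L1 := H.filter fun h => #(down H h) < C with hL1
  set L2 := H'.filter fun h => #(down H' h) < C with hL2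
  set L3 := H''.filter fun h => #(down H'' h) < C with hL3
  have hd2 : ∀ h : X × Y × Z, down H' (Turan.rot h) =
      (H.filter fun e => e.2.1 = h.2.1 ∧ e ≤ h).image Turan.rot := by
    intro h
    ext e
    rw [mem_down, mem_image, mem_image]
    constructor
    · rintro ⟨⟨a, ha, rfl⟩, h1, h2⟩
      exact ⟨a, mem_filter.2 ⟨ha, h1, ⟨h2.2.2, h2.1, h2.2.1⟩⟩, rfl⟩
    · rintro ⟨a, ha, rfl⟩
      rw [mem_filter] at ha
      exact ⟨⟨a, ha.1, rfl⟩, ha.2.1, ⟨ha.2.2.2.1, ha.2.2.2.2, ha.2.2.1⟩⟩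
  have hd3 : ∀ h : X × Y × Z, down H'' (Turan.rot (Turan.rot h)) =
      ((H.filter fun e => e.2.2 = h.2.2 ∧ e ≤ h).image Turan.rot).image Turan.rot := by
    intro h
    ext e
    rw [mem_down, mem_image, mem_image]
    constructor
    · rintro ⟨⟨a, ha, rfl⟩, h1, h2⟩
      rw [hH', mem_image] at ha
      obtain ⟨a, ha, rfl⟩ := ha
      exact ⟨Turan.rot a, mem_image.2 ⟨a, mem_filter.2 ⟨ha, h1, ⟨h2.2.1, h2.2.2, h2.1⟩⟩, rfl⟩, rfl⟩
    · rintro ⟨b, hb, rfl⟩
      rw [mem_image] at hb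
      obtain ⟨a, ha, rfl⟩ := hb
      rw [mem_filter] at ha
      exact ⟨⟨Turan.rot a, mem_image_of_mem _ ha.1, rfl⟩, ha.2.1,
        ⟨ha.2.2.2.2, ha.2.2.1, ha.2.2.2.1⟩⟩
  have hcov : ∀ h ∈ H, h ∈ L1 ∨ Turan.rot h ∈ L2 ∨ Turan.rot (Turan.rot h) ∈ L3 := by
    intro h hh
    by_contra hcon
    push Not at hcon
    obtain ⟨n1, n2, n3⟩ := hcon
    have m1 : C ≤ #(down H h) := by
      by_contra hlt
      exact n1 (mem_filter.2 ⟨hh, by omega⟩)
    have m2 : C ≤ #(down H' (Turan.rot h)) := by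
      by_contra hlt
      exact n2 (mem_filter.2 ⟨mem_image_of_mem _ hh, by omega⟩)
    have m3 : C ≤ #(down H'' (Turan.rot (Turan.rot h))) := by
      by_contra hlt
      exact n3 (mem_filter.2 ⟨mem_image_of_mem _ (mem_image_of_mem _ hh), by omega⟩)
    rw [hd2, card_image_of_injective _ rot_injective] at m2
    rw [hd3, card_image_of_injective _ rot_injective, card_image_of_injective _ rot_injective] at m3
    obtain ⟨g, hg, hgne⟩ := exists_mem_ne
      (show 1 < #(H.filter fun e => e.2.2 = h.2.2 ∧ e ≤ h) by omega) h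
    rw [mem_filter] at hg
    have := local_bound hs hH hsp h (down H h) (H.filter fun e => e.2.1 = h.2.1 ∧ e ≤ h)
      (fun e he => (mem_down _ _ _).1 he) (fun e he => mem_filter.1 he) g hg.1 hg.2.1 hg.2.2 hgne
    omega
  have hle : #H ≤ #L1 + #L2 + #L3 := by
    have h1 : H ⊆ (L1 ∪ H.filter fun h => Turan.rot h ∈ L2) ∪
        H.filter fun h => Turan.rot (Turan.rot h) ∈ L3 := by
      intro h hh
      rcases hcov h hh with h1 | h1 | h1
      · exact mem_union_left _ (mem_union_left _ h1)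
      · exact mem_union_left _ (mem_union_right _ (mem_filter.2 ⟨hh, h1⟩))
      · exact mem_union_right _ (mem_filter.2 ⟨hh, h1⟩)
    have h2 : #(H.filter fun h => Turan.rot h ∈ L2) ≤ #L2 :=
      card_le_card_of_injOn Turan.rot (fun e he => (mem_filter.1 he).2)
        (rot_injective.injOn)
    have h3 : #(H.filter fun h => Turan.rot (Turan.rot h) ∈ L3) ≤ #L3 :=
      card_le_card_of_injOn (fun h => Turan.rot (Turan.rot h)) (fun e he => (mem_filter.1 he).2)
        ((rot_injective.comp rot_injective).injOn)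
    calc #H ≤ _ := card_le_card h1
      _ ≤ _ := card_union_le _ _
      _ ≤ (#L1 + #(H.filter fun h => Turan.rot h ∈ L2)) +
          #(H.filter fun h => Turan.rot (Turan.rot h) ∈ L3) :=
          Nat.add_le_add_right (card_union_le _ _) _
      _ ≤ _ := Nat.add_le_add (Nat.add_le_add_left h2 _) h3
  obtain ⟨M, hM1, hM2, hM3, hMK⟩ : ∃ M, #L1 ≤ M ∧ #L2 ≤ M ∧ #L3 ≤ M ∧ M ^ 4 ≤ K := by
    refine ⟨max #L1 (max #L2 #L3), le_max_left _ _, (le_max_left _ _).trans (le_max_right _ _),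
      (le_max_right _ _).trans (le_max_right _ _), ?_⟩
    rcases max_choice #L1 (max #L2 #L3) with h | h
    · rw [h]; exact c1
    · rw [h]
      rcases max_choice #L2 #L3 with h | h
      · rw [h]; exact c2
      · rw [h]; exact c3
  have hCs : C ≤ 2 * s ^ 2 := by
    have := Nat.le_self_pow (n := 2) (by norm_num) s
    omega
  calc #H ^ 4 ≤ (3 * M) ^ 4 := Nat.pow_le_pow_left (by omega) 4
    _ = 81 * M ^ 4 := by ring
    _ ≤ 81 * (C ^ 4 * s ^ 5 * n ^ 7) := Nat.mul_le_mul_left _ hMK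
    _ ≤ 81 * ((2 * s ^ 2) ^ 4 * s ^ 5 * n ^ 7) := by gcongr
    _ = 1296 * s ^ 13 * n ^ 7 := by ring

end Pool.Agent.TH602.Turan
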