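import Pool.Agent.TH602.Turan.Bes

/-!
# Triple systems closed under meets: no large boxes
-/

set_option autoImplicit false

namespace Pool.Agent.TH602.Turan

open Finset

theorem exists_enum {W Y : Type*} [DecidableEq W] [DecidableEq Y] (A : Finset W) (f : W → Y) (s : ℕ)
    (hs : 1 ≤ s) (h : s ≤ #(A.image f)) :
    ∃ a : ℕ → W, (∀ j < s, a j ∈ A) ∧ ∀ i < s, ∀ j < s, f (a i) = f (a j) → i = j := by
  obtain ⟨I, hI, hc⟩ := exists_subset_card_eq h
  let e : Fin s ≃ I := (Fin.castOrderIso hc.symm).toEquiv.trans I.equivFin.symm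
  have hex : ∀ j : Fin s, ∃ w ∈ A, f w = (e j : Y) := fun j => by
    have := hI (e j).2
    rw [mem_image] at this
    exact this
  choose w hw hfw using hex
  refine ⟨fun j => if h : j < s then w ⟨j, h⟩ else w ⟨0, hs⟩, fun j hj => ?_, fun i hi j hj hij => ?_⟩
  · simp only [dif_pos hj]
    exact hw _
  · simp only [dif_pos hi, dif_pos hj, hfw] at hij
    have := e.injective (Subtype.ext hij)
    simpa using this

variable {X Y Z : Type*} [DecidableEq X] [DecidableEq Y] [DecidableEq Z]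
  [SemilatticeInf X] [SemilatticeInf Y] [SemilatticeInf Z]

theorem local_bound {s : ℕ} (hs : 41 ≤ s) {H : Finset (X × Y × Z)} (hH : MeetClosed H)
    (hsp : SparseTriples s H) (h : X × Y × Z) (A B : Finset (X × Y × Z))
    (hA : ∀ e ∈ A, e ∈ H ∧ e.1 = h.1 ∧ e ≤ h) (hB : ∀ e ∈ B, e ∈ H ∧ e.2.1 = h.2.1 ∧ e ≤ h)
    (g : X × Y × Z) (hg : g ∈ H) (hgz : g.2.2 = h.2.2) (hgh : g ≤ h) (hne : g ≠ h) :
    #A < s ^ 2 + s ∨ #B < s ^ 2 + s := by
  classical
  by_contra hcon
  push Not at hcon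
  obtain ⟨hA', hB'⟩ := hcon
  have hs2 : s ≤ s ^ 2 := Nat.le_self_pow (by norm_num) s
  -- meets with `g`
  have hAg : ∀ e ∈ A, e ⊓ g = (g.1, e.2.1 ⊓ g.2.1, e.2.2) := by
    intro e he
    obtain ⟨-, h1, h2⟩ := hA e he
    refine Prod.ext ?_ (Prod.ext rfl ?_)
    · show e.1 ⊓ g.1 = g.1
      rw [h1]; exact inf_eq_right.2 hgh.1
    · show e.2.2 ⊓ g.2.2 = e.2.2
      rw [hgz]; exact inf_eq_left.2 h2.2.2
  have hBg : ∀ e ∈ B, e ⊓ g = (e.1 ⊓ g.1, g.2.1, e.2.2) := by
    intro e he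
    obtain ⟨-, h1, h2⟩ := hB e he
    refine Prod.ext rfl (Prod.ext ?_ ?_)
    · show e.2.1 ⊓ g.2.1 = g.2.1
      rw [h1]; exact inf_eq_right.2 hgh.2.1
    · show e.2.2 ⊓ g.2.2 = e.2.2
      rw [hgz]; exact inf_eq_left.2 h2.2.2
  have hA1 : h.1 ≠ g.1 → #(A.filter fun e => e.2.1 ≤ g.2.1) < s := by
    intro hx
    have := hsp.pairs_x h.1 g.1 hx (A.filter fun e => e.2.1 ≤ g.2.1) (fun e he => by
      rw [mem_filter] at he
      refine ⟨(hA e he.1).2.1, (hA e he.1).1, ?_⟩
      have h1 := hH e (hA e he.1).1 g hg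
      rw [hAg e he.1, inf_eq_left.2 he.2] at h1
      exact h1)
    omega
  have hB1 : h.2.1 ≠ g.2.1 → #(B.filter fun e => e.1 ≤ g.1) < s := by
    intro hy
    have := hsp.pairs_y h.2.1 g.2.1 hy (B.filter fun e => e.1 ≤ g.1) (fun e he => by
      rw [mem_filter] at he
      refine ⟨(hB e he.1).2.1, (hB e he.1).1, ?_⟩
      have h1 := hH e (hB e he.1).1 g hg
      rw [hBg e he.1, inf_eq_left.2 he.2] at h1
      exact h1)
    omega
  have hx : h.1 ≠ g.1 := by
    intro hx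
    have hy : h.2.1 ≠ g.2.1 := fun hy => hne (Prod.ext hx.symm (Prod.ext hy.symm hgz))
    have h1 := hB1 hy
    rw [filter_true_of_mem (fun e he => hx ▸ (hB e he).2.2.1)] at h1
    omega
  have hy : h.2.1 ≠ g.2.1 := by
    intro hy
    have h1 := hA1 hx
    rw [filter_true_of_mem (fun e he => hy ▸ (hA e he).2.2.2.1)] at h1
    omega
  -- four rows
  have hrow : s ≤ #((A.filter fun e => ¬e.2.1 ≤ g.2.1).image fun e => e.2.1) := by
    have h1 := card_filter_add_card_filter_not (s := A) (fun e => e.2.1 ≤ g.2.1)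
    have h2 := hA1 hx
    have h3 := card_le_mul_card_image (f := fun e : X × Y × Z => e.2.1)
      (A.filter fun e => ¬e.2.1 ≤ g.2.1) s (fun y _ => by
        have := hsp.codeg_xy h.1 y
          ((A.filter fun e => ¬e.2.1 ≤ g.2.1).filter fun e => e.2.1 = y)
          (fun e he => (hA e (mem_filter.1 (mem_filter.1 he).1).1).1)
          (fun e he => ⟨(hA e (mem_filter.1 (mem_filter.1 he).1).1).2.1, (mem_filter.1 he).2⟩)
        omega)
    have h4 : s ^ 2 ≤ #(A.filter fun e => ¬e.2.1 ≤ g.2.1) := by omega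
    rw [sq] at h4
    exact Nat.le_of_mul_le_mul_left (h4.trans h3) (by omega)
  have hcol : s ≤ #((B.filter fun e => ¬e.1 ≤ g.1).image fun e => e.1) := by
    have h1 := card_filter_add_card_filter_not (s := B) (fun e => e.1 ≤ g.1)
    have h2 := hB1 hy
    have h3 := card_le_mul_card_image (f := fun e : X × Y × Z => e.1)
      (B.filter fun e => ¬e.1 ≤ g.1) s (fun x _ => by
        have := hsp.codeg_xy x h.2.1
          ((B.filter fun e => ¬e.1 ≤ g.1).filter fun e => e.1 = x)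
          (fun e he => (hB e (mem_filter.1 (mem_filter.1 he).1).1).1)
          (fun e he => ⟨(mem_filter.1 he).2, (hB e (mem_filter.1 (mem_filter.1 he).1).1).2.1⟩)
        omega)
    have h4 : s ^ 2 ≤ #(B.filter fun e => ¬e.1 ≤ g.1) := by omega
    rw [sq] at h4
    exact Nat.le_of_mul_le_mul_left (h4.trans h3) (by omega)
  obtain ⟨a, ha, hainj⟩ := exists_enum _ _ 4 (by norm_num) (le_trans (by omega) hrow)
  obtain ⟨b, hb, hbinj⟩ := exists_enum _ _ s (by omega) hcol
  simp only [mem_filter] at ha hb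
  -- coordinates of the box
  have hu : ∀ i < 4, ∀ j < s, a i ⊓ b j = ((b j).1, (a i).2.1, (a i).2.2 ⊓ (b j).2.2) := by
    intro i hi j hj
    obtain ⟨-, h1, h2⟩ := hA _ (ha i hi).1
    obtain ⟨-, h3, h4⟩ := hB _ (hb j hj).1
    refine Prod.ext ?_ (Prod.ext ?_ rfl)
    · show (a i).1 ⊓ (b j).1 = (b j).1
      rw [h1]; exact inf_eq_right.2 h4.1
    · show (a i).2.1 ⊓ (b j).2.1 = (a i).2.1
      rw [h3]; exact inf_eq_left.2 h2.2.1
  have hv : ∀ i < 4, ∀ j < s, a i ⊓ b j ⊓ g =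
      ((b j).1 ⊓ g.1, (a i).2.1 ⊓ g.2.1, (a i).2.2 ⊓ (b j).2.2) := by
    intro i hi j hj
    rw [hu i hi j hj]
    refine Prod.ext rfl (Prod.ext rfl ?_)
    show ((a i).2.2 ⊓ (b j).2.2) ⊓ g.2.2 = (a i).2.2 ⊓ (b j).2.2
    rw [hgz]
    exact inf_eq_left.2 (inf_le_left.trans (hA _ (ha i hi).1).2.2.2.2)
  let U : ℕ → Finset (X × Y × Z) := fun n =>
    (range 4 ×ˢ range n).image fun p => a p.1 ⊓ b p.2
  let V : ℕ → Finset (X × Y × Z) := fun n =>
    (range 4 ×ˢ range n).image fun p => a p.1 ⊓ b p.2 ⊓ g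
  have hUc : ∀ n ≤ s, #(U n) = 4 * n := by
    intro n hn
    rw [card_image_of_injOn, card_product, card_range, card_range]
    rintro ⟨i, j⟩ h1 ⟨i', j'⟩ h2 h3
    simp only [coe_product, coe_range, Set.mem_prod, Set.mem_Iio] at h1 h2
    simp only at h3
    rw [hu i h1.1 j (h1.2.trans_le hn), hu i' h2.1 j' (h2.2.trans_le hn)] at h3
    simp only [Prod.mk.injEq] at h3
    rw [hainj i h1.1 i' h2.1 h3.2.1, hbinj j (h1.2.trans_le hn) j' (h2.2.trans_le hn) h3.1]
  have hdisj : ∀ n ≤ s, Disjoint (U n) (V n) := by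
    intro n hn
    rw [disjoint_left]
    intro e h1 h2
    rw [mem_image] at h1 h2
    obtain ⟨⟨i, j⟩, h1, rfl⟩ := h1
    obtain ⟨⟨i', j'⟩, h2, h3⟩ := h2
    rw [mem_product, mem_range, mem_range] at h1 h2
    simp only at h1 h2 h3
    rw [hu i h1.1 j (h1.2.trans_le hn), hv i' h2.1 j' (h2.2.trans_le hn)] at h3
    simp only [Prod.mk.injEq] at h3
    exact (hb j (h1.2.trans_le hn)).2 (h3.1 ▸ inf_le_right)
  have hTc : ∀ n ≤ s, #(U n ∪ V n) = 4 * n + #(V n) := fun n hn => by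
    rw [card_union_of_disjoint (hdisj n hn), hUc n hn]
  have hVs : ∀ n, #(V (n + 1)) ≤ #(V n) + 4 := by
    intro n
    have h1 : V (n + 1) ⊆ V n ∪ (range 4).image fun i => a i ⊓ b n ⊓ g := by
      intro e he
      rw [mem_image] at he
      obtain ⟨⟨i, j⟩, h1, rfl⟩ := he
      rw [mem_product, mem_range, mem_range] at h1
      simp only at h1
      rw [mem_union, mem_image, mem_image]
      rcases Nat.lt_succ_iff_lt_or_eq.1 h1.2 with h2 | h2
      · exact Or.inl ⟨(i, j), mem_product.2 ⟨mem_range.2 h1.1, mem_range.2 h2⟩, rfl⟩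
      · exact Or.inr ⟨i, mem_range.2 h1.1, by rw [h2]⟩
    calc #(V (n + 1)) ≤ _ := card_le_card h1
      _ ≤ #(V n) + #((range 4).image fun i => a i ⊓ b n ⊓ g) := card_union_le _ _
      _ ≤ #(V n) + 4 := Nat.add_le_add_left (card_image_le.trans (by simp)) _
  have hV4 : ∀ n, #(V n) ≤ 4 * n := fun n => by
    refine card_image_le.trans ?_
    rw [card_product, card_range, card_range]
  -- the first time at which there are `s` triples
  have hex : ∃ n, s ≤ #(U n ∪ V n) := ⟨s, by rw [hTc s le_rfl]; omega⟩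
  obtain ⟨N, hN, hmin⟩ : ∃ N, s ≤ #(U N ∪ V N) ∧ ∀ m < N, #(U m ∪ V m) < s := by
    refine ⟨Nat.find hex, Nat.find_spec hex, fun m hm => ?_⟩
    have := Nat.find_min hex hm
    omega
  have hNs : N ≤ s := by
    by_contra hN'
    push Not at hN'
    have := hmin s hN'
    rw [hTc s le_rfl] at this
    omega
  have hN0 : N ≠ 0 := by
    rintro rfl
    rw [hTc 0 (Nat.zero_le _)] at hN
    have := hV4 0
    omega
  obtain ⟨n, rfl⟩ := Nat.exists_eq_succ_of_ne_zero hN0
  have h1 := hmin n (Nat.lt_succ_self n)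
  rw [hTc n (by omega)] at h1
  rw [Nat.succ_eq_add_one, hTc (n + 1) hNs] at hN
  have h2 := hVs n
  have h3 := hV4 (n + 1)
  -- count the vertices
  have hmemT : ∀ e ∈ U (n + 1) ∪ V (n + 1), ∃ i < 4, ∃ j < n + 1,
      (e = a i ⊓ b j ∨ e = a i ⊓ b j ⊓ g) := by
    intro e he
    rw [mem_union, mem_image, mem_image] at he
    rcases he with ⟨⟨i, j⟩, h1, rfl⟩ | ⟨⟨i, j⟩, h1, rfl⟩
    · rw [mem_product, mem_range, mem_range] at h1
      exact ⟨i, h1.1, j, h1.2, Or.inl rfl⟩
    · rw [mem_product, mem_range, mem_range] at h1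
      exact ⟨i, h1.1, j, h1.2, Or.inr rfl⟩
  have hc1 : #((U (n + 1) ∪ V (n + 1)).image fun e => e.1) ≤ 2 * (n + 1) := by
    have h4 : (U (n + 1) ∪ V (n + 1)).image (fun e => e.1) ⊆
        (range (n + 1)).image (fun j => (b j).1) ∪ (range (n + 1)).image fun j => (b j).1 ⊓ g.1 := by
      intro x hx
      rw [mem_image] at hx
      obtain ⟨e, he, rfl⟩ := hx
      rw [mem_union, mem_image, mem_image]
      obtain ⟨i, hi, j, hj, rfl | rfl⟩ := hmemT e he
      · rw [hu i hi j (by omega)]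
        exact Or.inl ⟨j, mem_range.2 hj, rfl⟩
      · rw [hv i hi j (by omega)]
        exact Or.inr ⟨j, mem_range.2 hj, rfl⟩
    have h5 := (card_le_card h4).trans (card_union_le _ _)
    have h6 : #((range (n + 1)).image fun j => (b j).1) ≤ n + 1 := card_image_le.trans (by simp)
    have h7 : #((range (n + 1)).image fun j => (b j).1 ⊓ g.1) ≤ n + 1 :=
      card_image_le.trans (by simp)
    omega
  have hc2 : #((U (n + 1) ∪ V (n + 1)).image fun e => e.2.1) ≤ 8 := by
    have h4 : (U (n + 1) ∪ V (n + 1)).image (fun e => e.2.1) ⊆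
        (range 4).image (fun i => (a i).2.1) ∪ (range 4).image fun i => (a i).2.1 ⊓ g.2.1 := by
      intro x hx
      rw [mem_image] at hx
      obtain ⟨e, he, rfl⟩ := hx
      rw [mem_union, mem_image, mem_image]
      obtain ⟨i, hi, j, hj, rfl | rfl⟩ := hmemT e he
      · rw [hu i hi j (by omega)]
        exact Or.inl ⟨i, mem_range.2 hi, rfl⟩
      · rw [hv i hi j (by omega)]
        exact Or.inr ⟨i, mem_range.2 hi, rfl⟩
    have h5 := (card_le_card h4).trans (card_union_le _ _)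
    have h6 : #((range 4).image fun i => (a i).2.1) ≤ 4 := card_image_le.trans (by simp)
    have h7 : #((range 4).image fun i => (a i).2.1 ⊓ g.2.1) ≤ 4 := card_image_le.trans (by simp)
    omega
  have hc3 : #((U (n + 1) ∪ V (n + 1)).image fun e => e.2.2) ≤ #(V (n + 1)) := by
    have h4 : (U (n + 1) ∪ V (n + 1)).image (fun e => e.2.2) ⊆
        (V (n + 1)).image (fun e => e.2.2) := by
      intro x hx
      rw [mem_image] at hx
      obtain ⟨e, he, rfl⟩ := hx
      obtain ⟨i, hi, j, hj, hij⟩ := hmemT e he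
      rw [mem_image]
      refine ⟨a i ⊓ b j ⊓ g, mem_image.2 ⟨(i, j), mem_product.2 ⟨mem_range.2 hi,
        mem_range.2 hj⟩, rfl⟩, ?_⟩
      rcases hij with rfl | rfl
      · rw [hv i hi j (by omega), hu i hi j (by omega)]
      · rfl
    exact (card_le_card h4).trans card_image_le
  have h8 := hsp.lt (U (n + 1) ∪ V (n + 1)) (fun e he => by
    obtain ⟨i, hi, j, hj, rfl | rfl⟩ := hmemT e he
    · exact hH _ (hA _ (ha i hi).1).1 _ (hB _ (hb j (by omega)).1).1
    · exact hH _ (hH _ (hA _ (ha i hi).1).1 _ (hB _ (hb j (by omega)).1).1) _ hg) (by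
    rw [hTc (n + 1) hNs]; exact hN)
  omega

end Pool.Agent.TH602.Turan
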