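import Mathlib

/-!
# The bipartite graph of a relation and complete bipartite subgraphs
-/

set_option autoImplicit false

namespace Pool.Agent.TH602.Turan

open Finset SimpleGraph

/-- The bipartite graph of a relation `E ⊆ X × Y`: its vertex set is the disjoint union of `X` and
`Y`, and `x ∈ X`, `y ∈ Y` are adjacent if `(x, y) ∈ E`. -/
def relGraph {X Y : Type*} (E : Set (X × Y)) : SimpleGraph (X ⊕ Y) where
  Adj a b := ∃ x y, (x, y) ∈ E ∧ ((a = Sum.inl x ∧ b = Sum.inr y) ∨ (a = Sum.inr y ∧ b = Sum.inl x))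
  symm := ⟨by
    rintro a b ⟨x, y, h, h' | h'⟩
    · exact ⟨x, y, h, Or.inr ⟨h'.2, h'.1⟩⟩
    · exact ⟨x, y, h, Or.inl ⟨h'.2, h'.1⟩⟩⟩
  loopless := ⟨by
    rintro a ⟨x, y, -, ⟨rfl, h⟩ | ⟨rfl, h⟩⟩ <;> simp at h⟩

variable {X Y : Type*} {E : Set (X × Y)}

theorem relGraph_inl_inr (x : X) (y : Y) : (relGraph E).Adj (Sum.inl x) (Sum.inr y) ↔ (x, y) ∈ E := by
  constructor
  · rintro ⟨x', y', h, ⟨h1, h2⟩ | ⟨h1, h2⟩⟩
    · cases h1; cases h2; exact h
    · cases h1
  · exact fun h => ⟨x, y, h, Or.inl ⟨rfl, rfl⟩⟩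

theorem relGraph_inl_inl (x x' : X) : ¬(relGraph E).Adj (Sum.inl x) (Sum.inl x') := by
  rintro ⟨x'', y', h, ⟨h1, h2⟩ | ⟨h1, h2⟩⟩
  · cases h2
  · cases h1

theorem relGraph_inr_inr (y y' : Y) : ¬(relGraph E).Adj (Sum.inr y) (Sum.inr y') := by
  rintro ⟨x'', y', h, ⟨h1, h2⟩ | ⟨h1, h2⟩⟩
  · cases h1
  · cases h2

/-- A complete bipartite subrelation with `s` elements of `X` and `t` elements of `Y`. -/
theorem not_free_left {s t : ℕ} (S : Finset X) (T : Finset Y) (hS : s ≤ #S) (hT : t ≤ #T)
    (h : ∀ x ∈ S, ∀ y ∈ T, (x, y) ∈ E) :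
    ¬(completeBipartiteGraph (Fin s) (Fin t)).Free (relGraph E) := by
  intro hfree
  obtain ⟨S', hS', rfl⟩ := exists_subset_card_eq hS
  obtain ⟨T', hT', rfl⟩ := exists_subset_card_eq hT
  apply hfree
  let f : Fin #S' ↪ X := S'.equivFin.symm.toEmbedding.trans (Function.Embedding.subtype _)
  let g : Fin #T' ↪ Y := T'.equivFin.symm.toEmbedding.trans (Function.Embedding.subtype _)
  have hf : ∀ i, f i ∈ S' := fun i => (S'.equivFin.symm i).2
  have hg : ∀ i, g i ∈ T' := fun i => (T'.equivFin.symm i).2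
  refine ⟨⟨⟨Sum.map f g, ?_⟩, ?_⟩⟩
  · intro a b hab
    rw [completeBipartiteGraph_adj] at hab
    rcases a with a | a <;> rcases b with b | b <;> simp at hab
    · exact (relGraph_inl_inr _ _).2 (h _ (hS' (hf a)) _ (hT' (hg b)))
    · exact ((relGraph_inl_inr _ _).2 (h _ (hS' (hf b)) _ (hT' (hg a)))).symm
  · exact Sum.map_injective.2 ⟨f.injective, g.injective⟩

/-- A complete bipartite subrelation with `t` elements of `X` and `s` elements of `Y`. -/
theorem not_free_right {s t : ℕ} (S : Finset X) (T : Finset Y) (hS : t ≤ #S) (hT : s ≤ #T)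
    (h : ∀ x ∈ S, ∀ y ∈ T, (x, y) ∈ E) :
    ¬(completeBipartiteGraph (Fin s) (Fin t)).Free (relGraph E) := by
  intro hfree
  obtain ⟨S', hS', rfl⟩ := exists_subset_card_eq hS
  obtain ⟨T', hT', rfl⟩ := exists_subset_card_eq hT
  apply hfree
  let f : Fin #S' ↪ X := S'.equivFin.symm.toEmbedding.trans (Function.Embedding.subtype _)
  let g : Fin #T' ↪ Y := T'.equivFin.symm.toEmbedding.trans (Function.Embedding.subtype _)
  have hf : ∀ i, f i ∈ S' := fun i => (S'.equivFin.symm i).2
  have hg : ∀ i, g i ∈ T' := fun i => (T'.equivFin.symm i).2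
  refine ⟨⟨⟨Sum.elim (fun i => Sum.inr (g i)) (fun i => Sum.inl (f i)), ?_⟩, ?_⟩⟩
  · intro a b hab
    rw [completeBipartiteGraph_adj] at hab
    rcases a with a | a <;> rcases b with b | b <;> simp at hab
    · exact ((relGraph_inl_inr _ _).2 (h _ (hS' (hf b)) _ (hT' (hg a)))).symm
    · exact (relGraph_inl_inr _ _).2 (h _ (hS' (hf a)) _ (hT' (hg b)))
  · rintro (a | a) (b | b) hab <;> simp only [Sum.elim_inl, Sum.elim_inr, RelHom.coeFn_mk,
      Sum.inr.injEq, Sum.inl.injEq, reduceCtorEq] at hab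
    · rw [g.injective hab]
    · rw [f.injective hab]

/-- The converse: a copy of `K_{s,t}` in the graph of `E` is a complete bipartite subrelation. -/
theorem free_of {s t : ℕ} (hs : 1 ≤ s) (ht : 1 ≤ t)
    (h1 : ∀ (S : Finset X) (T : Finset Y), #S = s → #T = t → ¬∀ x ∈ S, ∀ y ∈ T, (x, y) ∈ E)
    (h2 : ∀ (S : Finset X) (T : Finset Y), #S = t → #T = s → ¬∀ x ∈ S, ∀ y ∈ T, (x, y) ∈ E) :
    (completeBipartiteGraph (Fin s) (Fin t)).Free (relGraph E) := by
  classical
  rintro ⟨φ⟩
  have hadj : ∀ (i : Fin s) (j : Fin t), (relGraph E).Adj (φ (Sum.inl i)) (φ (Sum.inr j)) := by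
    intro i j
    refine φ.toHom.map_adj ?_
    rw [completeBipartiteGraph_adj]
    simp
  have hinj : Function.Injective φ := φ.injective
  rcases hφ : φ (Sum.inl ⟨0, hs⟩) with x₀ | y₀
  · have hr : ∀ j : Fin t, ∃ y, φ (Sum.inr j) = Sum.inr y := by
      intro j
      have := hadj ⟨0, hs⟩ j
      rw [hφ] at this
      rcases hj : φ (Sum.inr j) with x | y
      · rw [hj] at this
        exact (relGraph_inl_inl _ _ this).elim
      · exact ⟨y, rfl⟩
    have hl : ∀ i : Fin s, ∃ x, φ (Sum.inl i) = Sum.inl x := by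
      intro i
      obtain ⟨y, hy⟩ := hr ⟨0, ht⟩
      have := hadj i ⟨0, ht⟩
      rw [hy] at this
      rcases hi : φ (Sum.inl i) with x | y'
      · exact ⟨x, rfl⟩
      · rw [hi] at this
        exact (relGraph_inr_inr _ _ this).elim
    choose y hy using hr
    choose x hx using hl
    have hxi : Function.Injective x := fun a b hab => by
      have := hinj ((hx a).trans ((congrArg _ hab).trans (hx b).symm))
      exact Sum.inl_injective this
    have hyi : Function.Injective y := fun a b hab => by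
      have := hinj ((hy a).trans ((congrArg _ hab).trans (hy b).symm))
      exact Sum.inr_injective this
    refine h1 (univ.image x) (univ.image y) ?_ ?_ ?_
    · rw [card_image_of_injective _ hxi, card_univ, Fintype.card_fin]
    · rw [card_image_of_injective _ hyi, card_univ, Fintype.card_fin]
    · intro a ha b hb
      rw [mem_image] at ha hb
      obtain ⟨i, -, rfl⟩ := ha
      obtain ⟨j, -, rfl⟩ := hb
      have := hadj i j
      rwa [hx, hy, relGraph_inl_inr] at this
  · have hr : ∀ j : Fin t, ∃ x, φ (Sum.inr j) = Sum.inl x := by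
      intro j
      have := hadj ⟨0, hs⟩ j
      rw [hφ] at this
      rcases hj : φ (Sum.inr j) with x | y
      · exact ⟨x, rfl⟩
      · rw [hj] at this
        exact (relGraph_inr_inr _ _ this).elim
    have hl : ∀ i : Fin s, ∃ y, φ (Sum.inl i) = Sum.inr y := by
      intro i
      obtain ⟨x, hx⟩ := hr ⟨0, ht⟩
      have := hadj i ⟨0, ht⟩
      rw [hx] at this
      rcases hi : φ (Sum.inl i) with x' | y'
      · rw [hi] at this
        exact (relGraph_inl_inl _ _ this).elim
      · exact ⟨y', rfl⟩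
    choose x hx using hr
    choose y hy using hl
    have hxi : Function.Injective x := fun a b hab => by
      have := hinj ((hx a).trans ((congrArg _ hab).trans (hx b).symm))
      exact Sum.inr_injective this
    have hyi : Function.Injective y := fun a b hab => by
      have := hinj ((hy a).trans ((congrArg _ hab).trans (hy b).symm))
      exact Sum.inl_injective this
    refine h2 (univ.image x) (univ.image y) ?_ ?_ ?_
    · rw [card_image_of_injective _ hxi, card_univ, Fintype.card_fin]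
    · rw [card_image_of_injective _ hyi, card_univ, Fintype.card_fin]
    · intro a ha b hb
      rw [mem_image] at ha hb
      obtain ⟨i, -, rfl⟩ := ha
      obtain ⟨j, -, rfl⟩ := hb
      have := (hadj j i).symm
      rwa [hx, hy, relGraph_inl_inr] at this

end Pool.Agent.TH602.Turan
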