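import Mathlib

/-!
# Boolean operations that depend on at least two arguments (after Post)

A set `T` of Boolean vectors that is preserved by a Boolean operation depending on at least two of
its arguments is closed under conjunction, disjunction, majority or minority.
-/

set_option autoImplicit false

namespace Pool.Agent.TH602.Turan

/-- `f` depends on its `i`-th argument. -/
def DependsOn {k : ℕ} (f : (Fin k → Bool) → Bool) (i : Fin k) : Prop :=
  ∃ a : Fin k → Bool, f (Function.update a i true) ≠ f (Function.update a i false)

/-- `T` is preserved by `f`, applied coordinatewise. -/
def Preserved {J : Type*} {k : ℕ} (f : (Fin k → Bool) → Bool) (T : Set (J → Bool)) : Prop :=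
  ∀ e : Fin k → J → Bool, (∀ i, e i ∈ T) → (fun j => f fun i => e i j) ∈ T

/-- The four possibilities. -/
def Nontrivial4 {J : Type*} (T : Set (J → Bool)) : Prop :=
  (∀ a ∈ T, ∀ b ∈ T, (fun j => a j && b j) ∈ T) ∨
  (∀ a ∈ T, ∀ b ∈ T, (fun j => a j || b j) ∈ T) ∨
  (∀ a ∈ T, ∀ b ∈ T, ∀ c ∈ T, (fun j => (a j && b j) || (a j && c j) || (b j && c j)) ∈ T) ∨
  (∀ a ∈ T, ∀ b ∈ T, ∀ c ∈ T, (fun j => xor (xor (a j) (b j)) (c j)) ∈ T)

section

variable {J : Type*} {k : ℕ} {f : (Fin k → Bool) → Bool} {T : Set (J → Bool)}

theorem closed2 (hT : Preserved f T) (s : Fin k → Bool) (a b : J → Bool) (ha : a ∈ T) (hb : b ∈ T) :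
    (fun j => f fun i => bif s i then a j else b j) ∈ T := by
  have := hT (fun i => bif s i then a else b) (fun i => by cases s i <;> simpa)
  convert this using 4 with j i
  cases s i <;> rfl

theorem closed3 (hT : Preserved f T) (s : Fin k → Fin 3) (a b c : J → Bool) (ha : a ∈ T)
    (hb : b ∈ T) (hc : c ∈ T) : (fun j => f fun i => ![a j, b j, c j] (s i)) ∈ T := by
  have := hT (fun i => ![a, b, c] (s i)) (fun i => by
    match s i with
    | 0 => exact ha
    | 1 => exact hb
    | 2 => exact hc)
  convert this using 4 with j i
  match s i with
  | 0 => rfl
  | 1 => rfl
  | 2 => rfl

/-- The case `f(0,...,0) = f(1,...,1)`. -/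
theorem classify_const (hT : Preserved f T) (s : Fin k → Bool)
    (h0 : f (fun _ => false) = f (fun _ => true)) (h1 : f s ≠ f (fun _ => true)) :
    Nontrivial4 T := by
  set g : Bool → Bool → Bool := fun x y => f fun i => bif s i then x else y with hg
  have hcl : ∀ a ∈ T, ∀ b ∈ T, (fun j => g (a j) (b j)) ∈ T :=
    fun a ha b hb => closed2 hT s a b ha hb
  have v11 : g true true = f (fun _ => true) := by
    show f (fun i => bif s i then true else true) = f (fun _ => true)
    exact congrArg f (funext fun i => by cases s i <;> rfl)
  have v00 : g false false = f (fun _ => true) := by
    show f (fun i => bif s i then false else false) = f (fun _ => true)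
    rw [← h0]
    exact congrArg f (funext fun i => by cases s i <;> rfl)
  have v10 : g true false ≠ f (fun _ => true) := by
    have : g true false = f s := by
      show f (fun i => bif s i then true else false) = f s
      exact congrArg f (funext fun i => by cases s i <;> rfl)
    rwa [this]
  generalize f (fun _ => true) = c at v11 v00 v10
  clear_value g
  cases c
  · -- `c = false`
    have w10 : g true false = true := by simpa using v10
    rcases h01 : g false true with _ | _
    · left
      intro a ha b hb
      convert hcl a ha _ (hcl a ha b hb) using 2 with j
      cases a j <;> cases b j <;> simp [v11, v00, w10, h01]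
    · right; right; right
      intro a ha b hb c hc
      convert hcl _ (hcl a ha b hb) c hc using 2 with j
      cases a j <;> cases b j <;> cases c j <;> simp [v11, v00, w10, h01]
  · have w10 : g true false = false := by simpa using v10
    rcases h01 : g false true with _ | _
    · right; right; right
      intro a ha b hb c hc
      convert hcl _ (hcl a ha b hb) c hc using 2 with j
      cases a j <;> cases b j <;> cases c j <;> simp [v11, v00, w10, h01]
    · right; left
      intro a ha b hb
      convert hcl _ (hcl a ha b hb) b hb using 2 with j
      cases a j <;> cases b j <;> simp [v11, v00, w10, h01]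

/-- The idempotent case. -/
theorem classify_idem (hT : Preserved f T) (h0 : f (fun _ => false) = false)
    (h1 : f (fun _ => true) = true) (hproj : ∀ i, ∃ a, f a ≠ a i) : Nontrivial4 T := by
  classical
  by_cases hsd : ∀ s : Fin k → Bool, f (fun i => !(s i)) = !(f s)
  swap
  · push Not at hsd
    obtain ⟨s, hs⟩ := hsd
    have hs' : f (fun i => !(s i)) = f s := by
      revert hs
      cases f (fun i => !(s i)) <;> cases f s <;> simp
    set g : Bool → Bool → Bool := fun x y => f fun i => bif s i then x else y with hg
    have hcl : ∀ a ∈ T, ∀ b ∈ T, (fun j => g (a j) (b j)) ∈ T :=
      fun a ha b hb => closed2 hT s a b ha hb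
    have v11 : g true true = true := by
      refine Eq.trans ?_ h1
      show f (fun i => bif s i then true else true) = f (fun _ => true)
      exact congrArg f (funext fun i => by cases s i <;> rfl)
    have v00 : g false false = false := by
      refine Eq.trans ?_ h0
      show f (fun i => bif s i then false else false) = f (fun _ => false)
      exact congrArg f (funext fun i => by cases s i <;> rfl)
    have v10 : g true false = f s := by
      show f (fun i => bif s i then true else false) = f s
      exact congrArg f (funext fun i => by cases s i <;> rfl)
    have v01 : g false true = f s := by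
      refine Eq.trans ?_ hs'
      show f (fun i => bif s i then false else true) = f (fun i => !(s i))
      exact congrArg f (funext fun i => by cases s i <;> rfl)
    generalize f s = c at v10 v01
    clear_value g
    cases c
    · left
      intro a ha b hb
      convert hcl a ha b hb using 2 with j
      cases a j <;> cases b j <;> simp [v11, v00, v10, v01]
    · right; left
      intro a ha b hb
      convert hcl a ha b hb using 2 with j
      cases a j <;> cases b j <;> simp [v11, v00, v10, v01]
  -- values on partitions into three parts
  let ind : (Fin k → Fin 3) → Fin 3 → Fin k → Bool := fun s c i => decide (s i = c)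
  have key : (∃ s : Fin k → Fin 3, ¬((f (ind s 0) = true ∧ f (ind s 1) = false ∧ f (ind s 2) = false) ∨
      (f (ind s 0) = false ∧ f (ind s 1) = true ∧ f (ind s 2) = false) ∨
      (f (ind s 0) = false ∧ f (ind s 1) = false ∧ f (ind s 2) = true))) → Nontrivial4 T := by
    rintro ⟨s, hs⟩
    set g : Bool → Bool → Bool → Bool := fun x y z => f fun i => ![x, y, z] (s i) with hg
    have hcl : ∀ a ∈ T, ∀ b ∈ T, ∀ c ∈ T, (fun j => g (a j) (b j) (c j)) ∈ T :=
      fun a ha b hb c hc => closed3 hT s a b c ha hb hc
    have v111 : g true true true = true := by
      refine Eq.trans ?_ h1
      show f (fun i => ![true, true, true] (s i)) = f (fun _ => true)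
      exact congrArg f (funext fun i => by generalize s i = c; revert c; decide)
    have v000 : g false false false = false := by
      refine Eq.trans ?_ h0
      show f (fun i => ![false, false, false] (s i)) = f (fun _ => false)
      exact congrArg f (funext fun i => by generalize s i = c; revert c; decide)
    have v100 : g true false false = f (ind s 0) := by
      show f (fun i => ![true, false, false] (s i)) = f (fun i => decide (s i = 0))
      exact congrArg f (funext fun i => by generalize s i = c; revert c; decide)
    have v010 : g false true false = f (ind s 1) := by
      show f (fun i => ![false, true, false] (s i)) = f (fun i => decide (s i = 1))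
      exact congrArg f (funext fun i => by generalize s i = c; revert c; decide)
    have v001 : g false false true = f (ind s 2) := by
      show f (fun i => ![false, false, true] (s i)) = f (fun i => decide (s i = 2))
      exact congrArg f (funext fun i => by generalize s i = c; revert c; decide)
    have v011 : g false true true = !f (ind s 0) := by
      refine Eq.trans ?_ (hsd (ind s 0))
      show f (fun i => ![false, true, true] (s i)) = f (fun i => !(decide (s i = 0)))
      exact congrArg f (funext fun i => by generalize s i = c; revert c; decide)
    have v101 : g true false true = !f (ind s 1) := by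
      refine Eq.trans ?_ (hsd (ind s 1))
      show f (fun i => ![true, false, true] (s i)) = f (fun i => !(decide (s i = 1)))
      exact congrArg f (funext fun i => by generalize s i = c; revert c; decide)
    have v110 : g true true false = !f (ind s 2) := by
      refine Eq.trans ?_ (hsd (ind s 2))
      show f (fun i => ![true, true, false] (s i)) = f (fun i => !(decide (s i = 2)))
      exact congrArg f (funext fun i => by generalize s i = c; revert c; decide)
    generalize f (ind s 0) = p at hs v100 v011
    generalize f (ind s 1) = q at hs v010 v101
    generalize f (ind s 2) = r at hs v001 v110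
    clear hg
    clear_value g
    cases p <;> cases q <;> cases r <;> simp at hs v011 v101 v110
    · -- 000: majority
      right; right; left
      intro a ha b hb c hc
      convert hcl a ha b hb c hc using 2 with j
      cases a j <;> cases b j <;> cases c j <;> simp [*]
    · -- 011
      right; right; left
      intro a ha b hb c hc
      convert hcl _ (hcl a ha b hb c hc) b hb c hc using 2 with j
      cases a j <;> cases b j <;> cases c j <;> simp [*]
    · -- 101
      right; right; left
      intro a ha b hb c hc
      convert hcl a ha _ (hcl a ha b hb c hc) c hc using 2 with j
      cases a j <;> cases b j <;> cases c j <;> simp [*]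
    · -- 110
      right; right; left
      intro a ha b hb c hc
      convert hcl a ha b hb _ (hcl a ha b hb c hc) using 2 with j
      cases a j <;> cases b j <;> cases c j <;> simp [*]
    · -- 111: minority
      right; right; right
      intro a ha b hb c hc
      convert hcl a ha b hb c hc using 2 with j
      cases a j <;> cases b j <;> cases c j <;> simp [*]
  by_contra hcon
  have hall : ∀ s : Fin k → Fin 3,
      (f (ind s 0) = true ∧ f (ind s 1) = false ∧ f (ind s 2) = false) ∨
      (f (ind s 0) = false ∧ f (ind s 1) = true ∧ f (ind s 2) = false) ∨
      (f (ind s 0) = false ∧ f (ind s 1) = false ∧ f (ind s 2) = true) := by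
    intro s
    by_contra hs
    exact hcon (key ⟨s, hs⟩)
  -- two disjoint sets are never both sent to `true`; complement and union
  have hdisj : ∀ A B : Finset (Fin k), Disjoint A B →
      f (fun i => decide (i ∈ A)) = false → f (fun i => decide (i ∈ B)) = false →
      f (fun i => decide (i ∈ A ∪ B)) = false := by
    intro A B hAB hA hB
    let s : Fin k → Fin 3 := fun i => if i ∈ A then 0 else if i ∈ B then 1 else 2
    have e0 : ind s 0 = fun i => decide (i ∈ A) := by
      funext i; simp only [ind, s]; split_ifs <;> simp_all
    have e1 : ind s 1 = fun i => decide (i ∈ B) := by
      funext i; simp only [ind, s]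
      by_cases hiA : i ∈ A
      · have : i ∉ B := Finset.disjoint_left.1 hAB hiA
        simp [hiA, this]
      · by_cases hiB : i ∈ B <;> simp [hiA, hiB]
    have e2 : ind s 2 = fun i => !(decide (i ∈ A ∪ B)) := by
      funext i; simp only [ind, s, Finset.mem_union]
      by_cases hiA : i ∈ A <;> by_cases hiB : i ∈ B <;> simp [hiA, hiB]
    have h := hall s
    rw [e0, e1, e2, hA, hB, hsd] at h
    revert h
    cases f (fun i => decide (i ∈ A ∪ B)) <;> simp
  have hexcl : ∀ A B : Finset (Fin k), Disjoint A B →
      f (fun i => decide (i ∈ A)) = true → f (fun i => decide (i ∈ B)) = false := by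
    intro A B hAB hA
    let s : Fin k → Fin 3 := fun i => if i ∈ A then 0 else if i ∈ B then 1 else 2
    have e0 : ind s 0 = fun i => decide (i ∈ A) := by
      funext i; simp only [ind, s]; split_ifs <;> simp_all
    have e1 : ind s 1 = fun i => decide (i ∈ B) := by
      funext i; simp only [ind, s]
      by_cases hiA : i ∈ A
      · have : i ∉ B := Finset.disjoint_left.1 hAB hiA
        simp [hiA, this]
      · by_cases hiB : i ∈ B <;> simp [hiA, hiB]
    have h := hall s
    rw [e0, e1, hA] at h
    simp at h
    exact h.1
  by_cases hsing : ∃ i : Fin k, f (fun j => decide (j ∈ ({i} : Finset (Fin k)))) = true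
  · obtain ⟨i, hi⟩ := hsing
    obtain ⟨a, ha⟩ := hproj i
    have hzero : ∀ a : Fin k → Bool, a i = false → f a = false := by
      intro a hai
      have := hexcl {i} (Finset.univ.filter fun j => a j = true) (by
        rw [Finset.disjoint_singleton_left]; simp [hai]) hi
      simpa using this
    cases hai : a i
    · exact ha ((hzero a hai).trans hai.symm)
    · have h2 := hzero (fun j => !(a j)) (by simp [hai])
      rw [hsd] at h2
      refine ha ?_
      rw [hai]
      simpa using h2
  · push Not at hsing
    have hall0 : ∀ A : Finset (Fin k), f (fun i => decide (i ∈ A)) = false := by
      intro A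
      induction A using Finset.induction_on with
      | empty => simpa using h0
      | insert i A hi ih =>
        rw [Finset.insert_eq]
        exact hdisj {i} A (by rwa [Finset.disjoint_singleton_left]) (by simpa using hsing i) ih
    have := hall0 Finset.univ
    simp [h1] at this

end

/-- **Post**: if `T` is preserved by an operation that depends on two of its arguments then `T` is
closed under conjunction, disjunction, majority or minority. -/
theorem classify {J : Type*} {k : ℕ} (f : (Fin k → Bool) → Bool) (T : Set (J → Bool))
    (hT : Preserved f T) (i j : Fin k) (hij : i ≠ j) (hi : DependsOn f i) (hj : DependsOn f j) :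
    Nontrivial4 T := by
  obtain ⟨a, ha⟩ := hi
  obtain ⟨b, hb⟩ := hj
  by_cases h : f (fun _ => false) = f (fun _ => true)
  · by_cases h' : f (Function.update a i true) = f (fun _ => true)
    · refine classify_const hT (Function.update a i false) h fun h'' => ha (h'.trans h''.symm)
    · exact classify_const hT _ h h'
  · rcases h1 : f (fun _ => true) with _ | _
    · -- `f(1,...,1) = 0`, `f(0,...,0) = 1`
      have h0 : f (fun _ => false) = true := by
        rw [h1] at h; simpa using h
      have hneg : ∀ x : Bool, f (fun _ => x) = !x := by
        intro x; cases x
        · exact h0
        · exact h1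
      -- `f' a = f (¬ a)`
      have hT' : Preserved (fun a => f fun i => !(a i)) T := by
        intro e he
        have h2 : ∀ i, (fun j => f fun _ => e i j) ∈ T := fun i =>
          hT (fun _ => e i) fun _ => he i
        have h3 := hT (fun i j => f fun _ => e i j) h2
        simpa only [hneg] using h3
      refine classify_idem hT' ?_ ?_ ?_
      · show f (fun _ => !false) = false
        simpa using h1
      · show f (fun _ => !true) = true
        simpa using h0
      · intro l
        by_contra hl
        push Not at hl
        -- `f c = ! c l` for all `c`
        have hl' : ∀ c : Fin k → Bool, f c = !(c l) := by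
          intro c
          have := hl (fun i => !(c i))
          simpa using this
        by_cases hli : l = i
        · subst hli
          apply hb
          rw [hl', hl', Function.update_of_ne hij, Function.update_of_ne hij]
        · apply ha
          rw [hl', hl', Function.update_of_ne hli, Function.update_of_ne hli]
    · have h0 : f (fun _ => false) = false := by
        rw [h1] at h; simpa using h
      refine classify_idem hT h0 h1 fun l => ?_
      by_contra hl
      push Not at hl
      by_cases hli : l = i
      · subst hli
        apply hb
        rw [hl, hl, Function.update_of_ne hij, Function.update_of_ne hij]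
      · apply ha
        rw [hl, hl, Function.update_of_ne hli, Function.update_of_ne hli]

end Pool.Agent.TH602.Turan
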