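import Pool.Agent.TH602.Turan.Bip
import Pool.Agent.TH602.Turan.Post

/-!
# Relations between vertices of cubes: complete bipartite subrelations
-/

set_option autoImplicit false

namespace Pool.Agent.TH602.Turan

open Finset SimpleGraph

/-- The number of sets with less than `L` elements. -/
theorem card_small (m L : ℕ) :
    #((univ : Finset (Finset (Fin m))).filter fun B => #B < L) = ∑ b ∈ range L, m.choose b := by
  rw [card_eq_sum_card_fiberwise (f := fun B : Finset (Fin m) => #B) (t := range L)
    (fun B hB => by simpa using hB)]
  refine sum_congr rfl fun b hb => ?_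
  rw [mem_range] at hb
  have : ((univ : Finset (Finset (Fin m))).filter fun B => #B < L).filter (fun B => #B = b) =
      powersetCard b (univ : Finset (Fin m)) := by
    ext B
    simp only [mem_filter, mem_univ, true_and, mem_powersetCard, subset_univ]
    constructor
    · exact fun h => h.2
    · exact fun h => ⟨h ▸ hb, h⟩
  rw [this, card_powersetCard, card_univ, Fintype.card_fin]

/-- The members of `F` below `x`. -/
noncomputable def lows {m : ℕ} (F : Finset (Fin m → Bool)) (x : Fin m → Bool) :
    Finset (Fin m → Bool) := by
  classical exact F.filter fun x' => x' ≤ x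

theorem mem_lows {m : ℕ} (F : Finset (Fin m → Bool)) (x x' : Fin m → Bool) :
    x' ∈ lows F x ↔ x' ∈ F ∧ x' ≤ x := by
  simp [lows]

/-- In a family closed under intersections, few members contain less than `2^L` members. -/
theorem fibre {m : ℕ} (F : Finset (Fin m → Bool)) (hF : ∀ a ∈ F, ∀ b ∈ F, a ⊓ b ∈ F) (L : ℕ) :
    #(F.filter fun x => #(lows F x) < 2 ^ L) ≤ ∑ b ∈ range L, m.choose b := by
  classical
  rw [← card_small]
  -- a smallest set of coordinates determining `x`
  let P : (Fin m → Bool) → Finset (Fin m) → Prop := fun x B =>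
    (∀ i ∈ B, x i = true) ∧ ∀ x' ∈ F, (∀ i ∈ B, x' i = true) → x ≤ x'
  have hex : ∀ x, ∃ B, P x B ∧ ∀ C, P x C → #B ≤ #C := by
    intro x
    have hne : ((univ : Finset (Finset (Fin m))).filter (P x)).Nonempty := by
      refine ⟨univ.filter fun i => x i = true, ?_⟩
      rw [mem_filter]
      refine ⟨mem_univ _, fun i hi => (mem_filter.1 hi).2, fun x' _ hx' i => ?_⟩
      by_cases h : x i = true
      · rw [hx' i (by simpa using h)]
        exact le_top
      · have : x i = false := by simpa using h
        rw [this]
        exact bot_le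
    obtain ⟨B, hB, hmin⟩ := exists_min_image _ (fun B => #B) hne
    exact ⟨B, (mem_filter.1 hB).2, fun C hC => hmin C (by simpa using hC)⟩
  choose B hB hmin using hex
  refine card_le_card_of_injOn B ?_ ?_
  · intro x hx
    simp only [coe_filter, Set.mem_ofPred_eq] at hx
    simp only [coe_filter, mem_univ, true_and, Set.mem_ofPred_eq]
    obtain ⟨hxF, hcard⟩ := hx
    by_contra hcon
    push Not at hcon
    -- the least member above a set of coordinates
    have hne : ∀ C ⊆ B x, (F.filter fun x' => ∀ i ∈ C, x' i = true).Nonempty := by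
      intro C hC
      exact ⟨x, mem_filter.2 ⟨hxF, fun i hi => (hB x).1 i (hC hi)⟩⟩
    let z : Finset (Fin m) → (Fin m → Bool) := fun C =>
      if h : (F.filter fun x' => ∀ i ∈ C, x' i = true).Nonempty then
        (F.filter fun x' => ∀ i ∈ C, x' i = true).inf' h id else x
    have hz : ∀ C ⊆ B x, z C ∈ F ∧ z C ≤ x ∧ (∀ i ∈ C, z C i = true) ∧
        ∀ x' ∈ F, (∀ i ∈ C, x' i = true) → z C ≤ x' := by
      intro C hC
      have hdef : z C = (F.filter fun x' => ∀ i ∈ C, x' i = true).inf' (hne C hC) id := by
        simp only [z]
        rw [dif_pos (hne C hC)]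
      have hle : ∀ x' ∈ F, (∀ i ∈ C, x' i = true) → z C ≤ x' := by
        intro x' hx' h
        rw [hdef]
        exact Finset.inf'_le id (mem_filter.2 ⟨hx', h⟩)
      refine ⟨?_, hle x hxF fun i hi => (hB x).1 i (hC hi), ?_, hle⟩
      · rw [hdef]
        exact Finset.inf'_mem {a | a ∈ F} (fun a ha b hb => hF a ha b hb) _ _ id
          (fun i hi => (mem_filter.1 hi).1)
      · intro i hi
        rw [hdef]
        have := Finset.inf'_mem {a : Fin m → Bool | a i = true} (fun a ha b hb => by
          show (a ⊓ b) i = true
          rw [Pi.inf_apply]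
          rw [show a i = true from ha, show b i = true from hb]
          rfl) (F.filter fun x' => ∀ i ∈ C, x' i = true) (hne C hC) id
          (fun x' hx' => show x' i = true from (mem_filter.1 hx').2 i hi)
        exact this
    have hinj : Set.InjOn z ((B x).powerset : Set (Finset (Fin m))) := by
      have key : ∀ C ⊆ B x, ∀ C' ⊆ B x, z C = z C' → C' ⊆ C := by
        intro C hC C' hC' h i hi
        by_contra hiC
        -- `B x` without `i` would do
        have hP : P x ((B x).erase i) := by
          refine ⟨fun j hj => (hB x).1 j (mem_of_mem_erase hj), fun x' hx' h' => ?_⟩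
          have h1 : z C ≤ x' := (hz C hC).2.2.2 x' hx' fun j hj =>
            h' j (mem_erase.2 ⟨fun hji => hiC (hji ▸ hj), hC hj⟩)
          have h2 : x' i = true := by
            have h3 : z C i = true := by rw [h]; exact (hz C' hC').2.2.1 i hi
            have h4 := h1 i
            rw [h3] at h4
            exact top_le_iff.1 h4
          refine (hB x).2 x' hx' fun j hj => ?_
          by_cases hji : j = i
          · rw [hji]; exact h2
          · exact h' j (mem_erase.2 ⟨hji, hj⟩)
        have h5 := hmin x _ hP
        have h6 := card_erase_lt_of_mem (hC' hi)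
        omega
      intro C hC C' hC' h
      rw [mem_coe, mem_powerset] at hC hC'
      exact Subset.antisymm (key C' hC' C hC h.symm) (key C hC C' hC' h)
    have h7 : #(B x).powerset ≤ #(lows F x) := by
      refine card_le_card_of_injOn z ?_ hinj
      intro C hC
      rw [mem_coe, mem_powerset] at hC
      rw [mem_coe, mem_lows]
      exact ⟨(hz C hC).1, (hz C hC).2.1⟩
    rw [card_powerset] at h7
    have h8 : 2 ^ L ≤ 2 ^ #(B x) := Nat.pow_le_pow_right (by norm_num) hcon
    omega
  · intro x hx x' hx' h
    simp only [coe_filter, Set.mem_ofPred_eq] at hx hx'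
    exact le_antisymm ((hB x).2 x' hx'.1 fun i hi => (hB x').1 i (h ▸ hi))
      ((hB x').2 x hx.1 fun i hi => (hB x).1 i (h ▸ hi))

end Pool.Agent.TH602.Turan
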