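import Pool.Agent.TH602.Turan.Cube

/-!
# Relations between vertices of cubes that are preserved by a Boolean operation
-/

set_option autoImplicit false

namespace Pool.Agent.TH602.Turan

open Finset SimpleGraph

/-- Counting a relation by its columns. -/
theorem card_columns {X Y : Type*} [Fintype X] [Fintype Y] [DecidableEq X] [DecidableEq Y]
    (E : Finset (X × Y)) (c : ℕ) (G : Y → Finset X) (hG : ∀ y, #(G y) ≤ c)
    (h : ∀ e ∈ E, e.1 ∈ G e.2) : #E ≤ Fintype.card Y * c := by
  have h1 : E ⊆ (univ : Finset Y).biUnion fun y => (G y).image fun x => (x, y) := by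
    rintro ⟨x, y⟩ he
    rw [mem_biUnion]
    exact ⟨y, mem_univ _, mem_image.2 ⟨x, h _ he, rfl⟩⟩
  calc #E ≤ _ := card_le_card h1
    _ ≤ #(univ : Finset Y) * c := card_biUnion_le_card_mul _ _ _ fun y _ => card_image_le.trans (hG y)
    _ = Fintype.card Y * c := by rw [card_univ]

theorem card_cube (m : ℕ) : Fintype.card (Fin m → Bool) = 2 ^ m := by simp

/-- The bound for relations closed under meets. -/
theorem meet_bound {m m' r L : ℕ} (hr : r ≤ 2 ^ L) (E : Finset ((Fin m → Bool) × (Fin m' → Bool)))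
    (hE : ∀ e ∈ E, ∀ e' ∈ E, e ⊓ e' ∈ E)
    (hfree : ∀ S T, r ≤ #S → r ≤ #T → ¬∀ x ∈ S, ∀ y ∈ T, (x, y) ∈ E) :
    #E ≤ 2 ^ m' * ∑ b ∈ range L, m.choose b + 2 ^ m * ∑ b ∈ range L, m'.choose b := by
  classical
  let N₁ : (Fin m' → Bool) → Finset (Fin m → Bool) := fun y => univ.filter fun x => (x, y) ∈ E
  let N₂ : (Fin m → Bool) → Finset (Fin m' → Bool) := fun x => univ.filter fun y => (x, y) ∈ E
  have hN₁ : ∀ x y, x ∈ N₁ y ↔ (x, y) ∈ E := fun x y => by simp [N₁]
  have hN₂ : ∀ x y, y ∈ N₂ x ↔ (x, y) ∈ E := fun x y => by simp [N₂]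
  have hc₁ : ∀ y, ∀ a ∈ N₁ y, ∀ b ∈ N₁ y, a ⊓ b ∈ N₁ y := by
    intro y a ha b hb
    rw [hN₁] at ha hb ⊢
    have := hE _ ha _ hb
    rwa [Prod.mk_inf_mk, inf_idem] at this
  have hc₂ : ∀ x, ∀ a ∈ N₂ x, ∀ b ∈ N₂ x, a ⊓ b ∈ N₂ x := by
    intro x a ha b hb
    rw [hN₂] at ha hb ⊢
    have := hE _ ha _ hb
    rwa [Prod.mk_inf_mk, inf_idem] at this
  have h1 : #(E.filter fun e => #(lows (N₁ e.2) e.1) < 2 ^ L) ≤
      Fintype.card (Fin m' → Bool) * ∑ b ∈ range L, m.choose b := by
    refine card_columns _ _ (fun y => (N₁ y).filter fun x => #(lows (N₁ y) x) < 2 ^ L)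
      (fun y => fibre (N₁ y) (hc₁ y) L) fun e he => ?_
    rw [mem_filter] at he ⊢
    exact ⟨(hN₁ _ _).2 he.1, he.2⟩
  have h2 : #((E.filter fun e => #(lows (N₂ e.1) e.2) < 2 ^ L).image Prod.swap) ≤
      Fintype.card (Fin m → Bool) * ∑ b ∈ range L, m'.choose b := by
    refine card_columns _ _ (fun x => (N₂ x).filter fun y => #(lows (N₂ x) y) < 2 ^ L)
      (fun x => fibre (N₂ x) (hc₂ x) L) fun e he => ?_
    rw [mem_image] at he
    obtain ⟨e', he', rfl⟩ := he
    rw [mem_filter] at he' ⊢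
    exact ⟨(hN₂ _ _).2 he'.1, he'.2⟩
  rw [card_image_of_injective _ Prod.swap_injective, card_cube] at h2
  rw [card_cube] at h1
  have hcov : E ⊆ (E.filter fun e => #(lows (N₁ e.2) e.1) < 2 ^ L) ∪
      (E.filter fun e => #(lows (N₂ e.1) e.2) < 2 ^ L) := by
    rintro ⟨x, y⟩ he
    rw [mem_union]
    by_cases h : #(lows (N₁ y) x) < 2 ^ L
    · exact Or.inl (mem_filter.2 ⟨he, h⟩)
    · refine Or.inr (mem_filter.2 ⟨he, ?_⟩)
      by_contra h'
      simp only [not_lt] at h h'
      refine hfree _ _ (hr.trans h) (hr.trans h') fun x' hx' y' hy' => ?_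
      rw [mem_lows, hN₁] at hx'
      rw [mem_lows, hN₂] at hy'
      have := hE _ hx'.1 _ hy'.1
      rwa [Prod.mk_inf_mk, inf_eq_left.2 hx'.2, inf_eq_right.2 hy'.2] at this
  exact (card_le_card hcov).trans ((card_union_le _ _).trans (Nat.add_le_add h1 h2))

/-- The bound for rectangular relations. -/
theorem rect_bound {X Y : Type*} [Fintype X] [Fintype Y] [DecidableEq X] [DecidableEq Y] {r : ℕ}
    (E : Finset (X × Y))
    (hE : ∀ x x' y y', (x, y) ∈ E → (x', y) ∈ E → (x, y') ∈ E → (x', y') ∈ E)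
    (hfree : ∀ S T, r ≤ #S → r ≤ #T → ¬∀ x ∈ S, ∀ y ∈ T, (x, y) ∈ E) :
    #E ≤ Fintype.card Y * (r - 1) + Fintype.card X * (r - 1) := by
  let N₁ : Y → Finset X := fun y => univ.filter fun x => (x, y) ∈ E
  let N₂ : X → Finset Y := fun x => univ.filter fun y => (x, y) ∈ E
  have hN₁ : ∀ x y, x ∈ N₁ y ↔ (x, y) ∈ E := fun x y => by simp [N₁]
  have hN₂ : ∀ x y, y ∈ N₂ x ↔ (x, y) ∈ E := fun x y => by simp [N₂]
  have h1 : #(E.filter fun e => #(N₁ e.2) < r) ≤ Fintype.card Y * (r - 1) := by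
    refine card_columns _ _ (fun y => if #(N₁ y) < r then N₁ y else ∅) (fun y => ?_) fun e he => ?_
    · split_ifs with h
      · omega
      · simp
    · rw [mem_filter] at he
      rw [if_pos he.2]
      exact (hN₁ _ _).2 he.1
  have h2 : #((E.filter fun e => #(N₂ e.1) < r).image Prod.swap) ≤ Fintype.card X * (r - 1) := by
    refine card_columns _ _ (fun x => if #(N₂ x) < r then N₂ x else ∅) (fun x => ?_) fun e he => ?_
    · split_ifs with h
      · omega
      · simp
    · rw [mem_image] at he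
      obtain ⟨e', he', rfl⟩ := he
      rw [mem_filter] at he'
      rw [Prod.snd_swap, if_pos he'.2]
      exact (hN₂ _ _).2 he'.1
  rw [card_image_of_injective _ Prod.swap_injective] at h2
  have hcov : E ⊆ (E.filter fun e => #(N₁ e.2) < r) ∪ (E.filter fun e => #(N₂ e.1) < r) := by
    rintro ⟨x, y⟩ he
    rw [mem_union]
    by_cases h : #(N₁ y) < r
    · exact Or.inl (mem_filter.2 ⟨he, h⟩)
    · refine Or.inr (mem_filter.2 ⟨he, ?_⟩)
      by_contra h'
      simp only [not_lt] at h h'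
      refine hfree _ _ h h' fun x' hx' y' hy' => ?_
      rw [hN₁] at hx'
      rw [hN₂] at hy'
      exact hE x x' y y' he hx' hy'
  exact (card_le_card hcov).trans ((card_union_le _ _).trans (Nat.add_le_add h1 h2))

/-- The bound for relations closed under a translate of the meet. -/
theorem twist_bound {m m' r L : ℕ} (hr : r ≤ 2 ^ L)
    (E : Finset ((Fin m → Bool) × (Fin m' → Bool))) (a : Fin m → Bool) (b : Fin m' → Bool)
    (hE : ∀ e ∈ E, ∀ e' ∈ E, (fun j => xor (a j) (xor (a j) (e.1 j) && xor (a j) (e'.1 j)),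
      fun j => xor (b j) (xor (b j) (e.2 j) && xor (b j) (e'.2 j))) ∈ E)
    (hfree : ∀ S T, r ≤ #S → r ≤ #T → ¬∀ x ∈ S, ∀ y ∈ T, (x, y) ∈ E) :
    #E ≤ 2 ^ m' * ∑ b ∈ range L, m.choose b + 2 ^ m * ∑ b ∈ range L, m'.choose b := by
  classical
  let τ₁ : (Fin m → Bool) → (Fin m → Bool) := fun x j => xor (a j) (x j)
  let τ₂ : (Fin m' → Bool) → (Fin m' → Bool) := fun y j => xor (b j) (y j)
  have i₁ : Function.Involutive τ₁ := fun x => by
    funext j; simp only [τ₁]; cases a j <;> simp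
  have i₂ : Function.Involutive τ₂ := fun y => by
    funext j; simp only [τ₂]; cases b j <;> simp
  have hinj : Function.Injective (Prod.map τ₁ τ₂) := i₁.injective.prodMap i₂.injective
  have hmem : ∀ x y, (x, y) ∈ E.image (Prod.map τ₁ τ₂) ↔ (τ₁ x, τ₂ y) ∈ E := by
    intro x y
    rw [mem_image]
    constructor
    · rintro ⟨⟨x', y'⟩, h, h'⟩
      rw [Prod.map_apply, Prod.mk.injEq] at h'
      rw [← h'.1, ← h'.2, i₁, i₂]
      exact h
    · intro h
      exact ⟨_, h, by rw [Prod.map_apply, i₁, i₂]⟩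
  rw [← card_image_of_injective E hinj]
  refine meet_bound hr _ ?_ ?_
  · rintro ⟨x, y⟩ h ⟨x', y'⟩ h'
    rw [hmem] at h h'
    rw [Prod.mk_inf_mk, hmem]
    have h2 := hE _ h _ h'
    convert h2 using 2
    · funext j
      show xor (a j) (x j ⊓ x' j) =
        xor (a j) (xor (a j) (xor (a j) (x j)) && xor (a j) (xor (a j) (x' j)))
      cases a j <;> cases x j <;> cases x' j <;> rfl
    · funext j
      show xor (b j) (y j ⊓ y' j) =
        xor (b j) (xor (b j) (xor (b j) (y j)) && xor (b j) (xor (b j) (y' j)))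
      cases b j <;> cases y j <;> cases y' j <;> rfl
  · intro S T hS hT h
    refine hfree (S.image τ₁) (T.image τ₂) ?_ ?_ ?_
    · rwa [card_image_of_injective _ i₁.injective]
    · rwa [card_image_of_injective _ i₂.injective]
    · intro x hx y hy
      rw [mem_image] at hx hy
      obtain ⟨x, hx, rfl⟩ := hx
      obtain ⟨y, hy, rfl⟩ := hy
      exact (hmem x y).1 (h x hx y hy)

theorem sum_choose_large {m L : ℕ} (h : L ≤ m) : 2 ^ L - 1 ≤ ∑ b ∈ range L, m.choose b := by
  have h1 := Nat.sum_range_choose L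
  rw [sum_range_succ, Nat.choose_self] at h1
  calc 2 ^ L - 1 = ∑ b ∈ range L, L.choose b := by omega
    _ ≤ ∑ b ∈ range L, m.choose b := sum_le_sum fun b _ => Nat.choose_le_choose b h

theorem sum_choose_small {m L : ℕ} (h : m < L) : 2 ^ m ≤ ∑ b ∈ range L, m.choose b := by
  rw [← Nat.sum_range_choose m]
  exact sum_le_sum_of_subset (range_subset_range.2 h)

/-- The bound for all relations preserved by a Boolean operation that depends on two arguments. -/
theorem op_bound {m m' r L k : ℕ} (hr : r ≤ 2 ^ L) (f : (Fin k → Bool) → Bool) (i j : Fin k)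
    (hij : i ≠ j) (hi : DependsOn f i) (hj : DependsOn f j)
    (E : Finset ((Fin m → Bool) × (Fin m' → Bool)))
    (hE : ∀ e : Fin k → (Fin m → Bool) × (Fin m' → Bool), (∀ i, e i ∈ E) →
      ((fun l => f fun i => (e i).1 l), (fun l => f fun i => (e i).2 l)) ∈ E)
    (hfree : ∀ S T, r ≤ #S → r ≤ #T → ¬∀ x ∈ S, ∀ y ∈ T, (x, y) ∈ E) :
    #E ≤ 2 ^ m' * ∑ b ∈ range L, m.choose b + 2 ^ m * ∑ b ∈ range L, m'.choose b := by
  let T : Set (Fin m ⊕ Fin m' → Bool) := {z | (fun l => z (Sum.inl l), fun l => z (Sum.inr l)) ∈ E}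
  have hT : Preserved f T := fun e he => hE (fun i => (fun l => e i (Sum.inl l),
    fun l => e i (Sum.inr l))) he
  have hmem : ∀ e ∈ E, (Sum.elim e.1 e.2 : Fin m ⊕ Fin m' → Bool) ∈ T := fun e he => he
  rcases classify f T hT i j hij hi hj with h | h | h | h
  · refine twist_bound hr E (fun _ => false) (fun _ => false) (fun e he e' he' => ?_) hfree
    have h1 := h _ (hmem e he) _ (hmem e' he')
    convert (show ((fun l => e.1 l && e'.1 l), (fun l => e.2 l && e'.2 l)) ∈ E from h1) using 2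
    · funext l; cases e.1 l <;> cases e'.1 l <;> rfl
    · funext l; cases e.2 l <;> cases e'.2 l <;> rfl
  · refine twist_bound hr E (fun _ => true) (fun _ => true) (fun e he e' he' => ?_) hfree
    have h1 := h _ (hmem e he) _ (hmem e' he')
    convert (show ((fun l => e.1 l || e'.1 l), (fun l => e.2 l || e'.2 l)) ∈ E from h1) using 2
    · funext l; cases e.1 l <;> cases e'.1 l <;> rfl
    · funext l; cases e.2 l <;> cases e'.2 l <;> rfl
  · rcases E.eq_empty_or_nonempty with rfl | ⟨⟨a, b⟩, hab⟩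
    · simp
    refine twist_bound hr E a b (fun e he e' he' => ?_) hfree
    have h1 := h _ (hmem e he) _ (hmem e' he') _ (hmem _ hab)
    convert (show ((fun l => (e.1 l && e'.1 l) || (e.1 l && a l) || (e'.1 l && a l)),
      (fun l => (e.2 l && e'.2 l) || (e.2 l && b l) || (e'.2 l && b l))) ∈ E from h1) using 2
    · funext l; cases e.1 l <;> cases e'.1 l <;> cases a l <;> rfl
    · funext l; cases e.2 l <;> cases e'.2 l <;> cases b l <;> rfl
  · have hall : #E ≤ 2 ^ m * 2 ^ m' := by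
      have := card_le_univ E
      rwa [Fintype.card_prod, card_cube, card_cube] at this
    rcases Nat.lt_or_ge m L with hm | hm
    · calc #E ≤ 2 ^ m * 2 ^ m' := hall
        _ = 2 ^ m' * 2 ^ m := Nat.mul_comm _ _
        _ ≤ 2 ^ m' * ∑ b ∈ range L, m.choose b := Nat.mul_le_mul_left _ (sum_choose_small hm)
        _ ≤ _ := Nat.le_add_right _ _
    rcases Nat.lt_or_ge m' L with hm' | hm'
    · calc #E ≤ 2 ^ m * 2 ^ m' := hall
        _ ≤ 2 ^ m * ∑ b ∈ range L, m'.choose b := Nat.mul_le_mul_left _ (sum_choose_small hm')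
        _ ≤ _ := Nat.le_add_left _ _
    have h1 := rect_bound (r := r) E (fun x x' y y' hxy hx'y hxy' => by
      have h1 := h _ (hmem _ hxy) _ (hmem _ hx'y) _ (hmem _ hxy')
      convert (show ((fun l => xor (xor (x l) (x' l)) (x l)),
        (fun l => xor (xor (y l) (y l)) (y' l))) ∈ E from h1) using 2
      · funext l; cases x l <;> cases x' l <;> rfl
      · funext l; cases y l <;> cases y' l <;> rfl) hfree
    rw [card_cube, card_cube] at h1
    refine h1.trans (Nat.add_le_add (Nat.mul_le_mul_left _ ?_) (Nat.mul_le_mul_left _ ?_))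
    · exact (Nat.sub_le_sub_right hr 1).trans (sum_choose_large hm)
    · exact (Nat.sub_le_sub_right hr 1).trans (sum_choose_large hm')

end Pool.Agent.TH602.Turan
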