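import Pool.Agent.TH602.Turan.Paths

/-!
# Graphs without `C_{2k}` and maps that send vertices to neighbours
-/

set_option autoImplicit false

namespace Pool.Agent.TH602.Turan

open Finset SimpleGraph

variable {V : Type*} [Fintype V] [DecidableEq V]

/-- One vertex `u` for each pair `(v, f u)`. -/
theorem select (H : Finset (V × V)) (f : V → V) (D : ℕ)
    (hD : ∀ z, #(H.filter fun e => f e.1 = z) ≤ D * (#((H.filter fun e => f e.1 = z).image Prod.fst) +
      #((H.filter fun e => f e.1 = z).image Prod.snd))) :
    ∃ H' ⊆ H, Set.InjOn (fun e : V × V => (e.2, f e.1)) H' ∧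
      #H ≤ D * (Fintype.card V + #H') := by
  obtain ⟨H', hH', hinj, himg⟩ :=
    (show Set.SurjOn (fun e : V × V => (e.2, f e.1)) (H : Set (V × V))
      ((H.image fun e : V × V => (e.2, f e.1) : Finset (V × V)) : Set (V × V)) from by
        rw [coe_image]; exact Set.surjOn_image _ _).exists_subset_injOn_image_eq
  have hfin : H'.Finite := H.finite_toSet.subset hH'
  obtain ⟨K, rfl⟩ := hfin.exists_finset_coe
  refine ⟨K, by exact_mod_cast hH', hinj, ?_⟩
  have hK : #K = #(H.image fun e : V × V => (e.2, f e.1)) := by
    rw [← card_image_of_injOn hinj]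
    congr 1
    have := himg
    rw [← coe_image] at this
    exact_mod_cast this
  rw [hK]
  set P := H.image fun e : V × V => (e.2, f e.1) with hP
  have h1 : #H = ∑ z, #(H.filter fun e => f e.1 = z) :=
    card_eq_sum_card_fiberwise fun _ _ => by simp
  have h2 : ∑ z, #((H.filter fun e => f e.1 = z).image Prod.fst) ≤ Fintype.card V := by
    calc ∑ z, #((H.filter fun e => f e.1 = z).image Prod.fst)
        ≤ ∑ z, #((univ : Finset V).filter fun v => f v = z) := by
          refine sum_le_sum fun z _ => card_le_card fun v hv => ?_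
          rw [mem_image] at hv
          obtain ⟨e, he, rfl⟩ := hv
          rw [mem_filter] at he ⊢
          exact ⟨mem_univ _, he.2⟩
      _ = #(univ : Finset V) :=
          (card_eq_sum_card_fiberwise (f := f) (s := univ) (t := univ)
            fun _ _ => by simp).symm
      _ = Fintype.card V := rfl
  have h3 : ∑ z, #((H.filter fun e => f e.1 = z).image Prod.snd) ≤ #P := by
    calc ∑ z, #((H.filter fun e => f e.1 = z).image Prod.snd)
        ≤ ∑ z, #(P.filter fun p => p.2 = z) := by
          refine sum_le_sum fun z _ => ?_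
          rw [← card_image_of_injective (f := fun v : V => (v, z)) _
            (fun a b hab => by simpa using hab)]
          refine card_le_card fun p hp => ?_
          simp only [mem_image, mem_filter, hP] at hp ⊢
          obtain ⟨v, ⟨e, he, rfl⟩, rfl⟩ := hp
          exact ⟨⟨e, he.1, by rw [he.2]⟩, rfl⟩
      _ = #P := (card_eq_sum_card_fiberwise (f := Prod.snd) (s := P) (t := univ)
            fun _ _ => by simp).symm
  calc #H = ∑ z, #(H.filter fun e => f e.1 = z) := h1
    _ ≤ ∑ z, D * (#((H.filter fun e => f e.1 = z).image Prod.fst) +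
      #((H.filter fun e => f e.1 = z).image Prod.snd)) := sum_le_sum fun z _ => hD z
    _ = D * (∑ z, #((H.filter fun e => f e.1 = z).image Prod.fst) +
        ∑ z, #((H.filter fun e => f e.1 = z).image Prod.snd)) := by
          rw [← mul_sum, sum_add_distrib]
    _ ≤ D * (Fintype.card V + #P) := Nat.mul_le_mul_left _ (by omega)

variable (G : SimpleGraph V) (f : V → V)

/-- Pairs of adjacent vertices with adjacent images, no one of which is the image of the other. -/
def Nice (e : V × V) : Prop :=
  G.Adj e.1 e.2 ∧ G.Adj e.1 (f e.1) ∧ G.Adj e.2 (f e.2) ∧ G.Adj (f e.1) (f e.2) ∧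
    e.2 ≠ f e.1 ∧ e.1 ≠ f e.2

variable {G f}

omit [Fintype V] [DecidableEq V] in
theorem Nice.swap {e : V × V} (h : Nice G f e) : Nice G f e.swap :=
  ⟨h.1.symm, h.2.2.1, h.2.1, h.2.2.2.1.symm, h.2.2.2.2.2, h.2.2.2.2.1⟩

omit [Fintype V] in
/-- Paths between vertices with the same image `z` can be closed at `z`. -/
theorem hub {k : ℕ} (hk : 2 ≤ k) (hfree : (cycleGraph (2 * k)).Free G) (H : Finset (V × V))
    (hH : ∀ e ∈ H, Nice G f e) (z : V) (hz : ∀ e ∈ H, f e.1 = z) :
    #H ≤ (2 * k - 2) * (#(H.image Prod.fst) + #(H.image Prod.snd)) := by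
  by_contra hcon
  push Not at hcon
  obtain ⟨K, hKH, hKne, hK1, hK2⟩ := exists_core _ H hcon
  obtain ⟨e₀, he₀⟩ := hKne
  obtain ⟨a, l, hlen, hpw, hch, hlast, hP, hall⟩ := greedy (fun v : V => ({v} : Finset V)) 1
    (2 * k - 2) (fun v => by simp)
    (fun b v => bif b then v ∈ K.image Prod.snd else v ∈ K.image Prod.fst) G.Adj
    (by
      intro b v hv S hS
      cases b with
      | false =>
        simp only [cond_false, mem_image] at hv
        obtain ⟨e, he, rfl⟩ := hv
        have h1 := hK1 e he
        have h2 : #S < #((K.filter fun e' => e'.1 = e.1).image Prod.snd) := by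
          rw [card_image_of_injOn]
          · omega
          · intro a ha b hb hab
            simp only [coe_filter, Set.mem_ofPred_eq] at ha hb
            exact Prod.ext (ha.2.trans hb.2.symm) hab
        obtain ⟨w, hw, hwS⟩ := exists_mem_notMem_of_card_lt_card h2
        rw [mem_image] at hw
        obtain ⟨e', he', rfl⟩ := hw
        rw [mem_filter] at he'
        refine ⟨e'.2, by simpa using hwS, ?_, ?_⟩
        · simp only [Bool.not_false, cond_true, mem_image]
          exact ⟨e', he'.1, rfl⟩
        · rw [← he'.2]
          exact (hH e' (hKH he'.1)).1.symm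
      | true =>
        simp only [cond_true, mem_image] at hv
        obtain ⟨e, he, rfl⟩ := hv
        have h1 := hK2 e he
        have h2 : #S < #((K.filter fun e' => e'.2 = e.2).image Prod.fst) := by
          rw [card_image_of_injOn]
          · omega
          · intro a ha b hb hab
            simp only [coe_filter, Set.mem_ofPred_eq] at ha hb
            exact Prod.ext hab (ha.2.trans hb.2.symm)
        obtain ⟨w, hw, hwS⟩ := exists_mem_notMem_of_card_lt_card h2
        rw [mem_image] at hw
        obtain ⟨e', he', rfl⟩ := hw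
        rw [mem_filter] at he'
        refine ⟨e'.1, by simpa using hwS, ?_, ?_⟩
        · simp only [Bool.not_true, cond_false, mem_image]
          exact ⟨e', he'.1, rfl⟩
        · rw [← he'.2]
          exact (hH e' (hKH he'.1)).1)
    false e₀.1 (by simp only [cond_false, mem_image]; exact ⟨e₀, he₀, rfl⟩) (2 * k - 2) (by omega)
  have heven : not^[2 * k - 2] = id := by
    have : 2 * k - 2 = 2 * (k - 1) := by omega
    rw [this, Function.iterate_mul]
    have h2 : (not^[2] : Bool → Bool) = id := by
      funext b; simp
    rw [h2, Function.iterate_id]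
  rw [heven] at hP
  simp only [id, cond_false, mem_image] at hP
  obtain ⟨ea, hea, rfl⟩ := hP
  -- vertices on the path are different from `z`
  have hne : ∀ v ∈ ea.1 :: l, v ≠ z := by
    intro v hv
    obtain ⟨b, hb⟩ := hall v hv
    cases b with
    | false =>
      simp only [cond_false, mem_image] at hb
      obtain ⟨e, he, rfl⟩ := hb
      have h1 := (hH e (hKH he)).2.1
      rw [hz e (hKH he)] at h1
      exact h1.ne
    | true =>
      simp only [cond_true, mem_image] at hb
      obtain ⟨e, he, rfl⟩ := hb
      have h1 := (hH e (hKH he)).2.2.2.2.1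
      rwa [hz e (hKH he)] at h1
  have hnd : (ea.1 :: l).Nodup := hpw.imp fun {u v} h => by
    rw [disjoint_singleton] at h
    exact h
  apply hfree
  refine cycle_of_list (z :: ea.1 :: l) ?_ ?_ ?_ (by simp) ?_
  · rw [List.length_cons, hlen]; omega
  · rw [List.nodup_cons]
    exact ⟨fun h => hne z h rfl, hnd⟩
  · refine List.IsChain.cons_cons ?_ hch
    have h1 := (hH ea (hKH hea)).2.1
    rw [hz ea (hKH hea)] at h1
    exact h1.symm
  · rw [List.getLast_cons (by simp), hlast, List.head_cons]
    have h1 := (hH e₀ (hKH he₀)).2.1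
    rwa [hz e₀ (hKH he₀)] at h1

omit [Fintype V] in
/-- A path on `k` vertices together with its image is a cycle of length `2k`. -/
theorem ladder {k : ℕ} (hk : 2 ≤ k) (hfree : (cycleGraph (2 * k)).Free G) (H : Finset (V × V))
    (hH : ∀ e ∈ H, Nice G f e) (h1 : Set.InjOn (fun e : V × V => (e.2, f e.1)) H)
    (h2 : Set.InjOn (fun e : V × V => (e.1, f e.2)) H) :
    #H ≤ (4 * (k - 1)) * (#(H.image Prod.fst) + #(H.image Prod.snd)) := by
  by_contra hcon
  push Not at hcon
  obtain ⟨K, hKH, hKne, hK1, hK2⟩ := exists_core _ H hcon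
  obtain ⟨e₀, he₀⟩ := hKne
  obtain ⟨a, l, hlen, hpw, hch, hlast, hP, hall⟩ := greedy (fun v : V => ({v, f v} : Finset V)) 2
    (2 * (k - 1)) (fun v => card_le_two)
    (fun b v => bif b then v ∈ K.image Prod.snd else v ∈ K.image Prod.fst)
    (fun w v => G.Adj w v ∧ G.Adj (f w) (f v))
    (by
      intro b v hv S hS
      cases b with
      | false =>
        simp only [cond_false, mem_image] at hv
        obtain ⟨e, he, rfl⟩ := hv
        have h3 := hK1 e he
        have h4 : #((K.filter fun e' => e'.1 = e.1).filter fun e' => e'.2 ∈ S) ≤ #S := by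
          refine card_le_card_of_injOn Prod.snd (fun e' he' => ?_) (fun a ha b hb hab => ?_)
          · simp only [coe_filter, mem_filter, Set.mem_ofPred_eq] at he'
            exact he'.2
          · simp only [coe_filter, mem_filter, Set.mem_ofPred_eq] at ha hb
            exact Prod.ext (ha.1.2.trans hb.1.2.symm) hab
        have h5 : #((K.filter fun e' => e'.1 = e.1).filter fun e' => f e'.2 ∈ S) ≤ #S := by
          refine card_le_card_of_injOn (fun e' => f e'.2) (fun e' he' => ?_)
            (fun a ha b hb hab => ?_)
          · simp only [coe_filter, mem_filter, Set.mem_ofPred_eq] at he'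
            exact he'.2
          · simp only [coe_filter, mem_filter, Set.mem_ofPred_eq] at ha hb
            exact h2 (hKH ha.1.1) (hKH hb.1.1) (Prod.ext (ha.1.2.trans hb.1.2.symm) hab)
        obtain ⟨e', he', hn1, hn2⟩ : ∃ e' ∈ K.filter (fun e' => e'.1 = e.1),
            e'.2 ∉ S ∧ f e'.2 ∉ S := by
          by_contra hno
          push Not at hno
          have : K.filter (fun e' => e'.1 = e.1) ⊆
              ((K.filter fun e' => e'.1 = e.1).filter fun e' => e'.2 ∈ S) ∪
              ((K.filter fun e' => e'.1 = e.1).filter fun e' => f e'.2 ∈ S) := by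
            intro e' he'
            rw [mem_union]
            by_cases hS' : e'.2 ∈ S
            · exact Or.inl (mem_filter.2 ⟨he', hS'⟩)
            · exact Or.inr (mem_filter.2 ⟨he', hno e' he' hS'⟩)
          have := (card_le_card this).trans (card_union_le _ _)
          omega
        rw [mem_filter] at he'
        refine ⟨e'.2, ?_, ?_, ?_⟩
        · rw [Finset.disjoint_left]
          intro x hx
          rw [mem_insert, mem_singleton] at hx
          rcases hx with rfl | rfl
          · exact hn1
          · exact hn2
        · simp only [Bool.not_false, cond_true, mem_image]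
          exact ⟨e', he'.1, rfl⟩
        · rw [← he'.2]
          exact ⟨(hH e' (hKH he'.1)).1.symm, (hH e' (hKH he'.1)).2.2.2.1.symm⟩
      | true =>
        simp only [cond_true, mem_image] at hv
        obtain ⟨e, he, rfl⟩ := hv
        have h3 := hK2 e he
        have h4 : #((K.filter fun e' => e'.2 = e.2).filter fun e' => e'.1 ∈ S) ≤ #S := by
          refine card_le_card_of_injOn Prod.fst (fun e' he' => ?_) (fun a ha b hb hab => ?_)
          · simp only [coe_filter, mem_filter, Set.mem_ofPred_eq] at he'
            exact he'.2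
          · simp only [coe_filter, mem_filter, Set.mem_ofPred_eq] at ha hb
            exact Prod.ext hab (ha.1.2.trans hb.1.2.symm)
        have h5 : #((K.filter fun e' => e'.2 = e.2).filter fun e' => f e'.1 ∈ S) ≤ #S := by
          refine card_le_card_of_injOn (fun e' => f e'.1) (fun e' he' => ?_)
            (fun a ha b hb hab => ?_)
          · simp only [coe_filter, mem_filter, Set.mem_ofPred_eq] at he'
            exact he'.2
          · simp only [coe_filter, mem_filter, Set.mem_ofPred_eq] at ha hb
            exact h1 (hKH ha.1.1) (hKH hb.1.1) (Prod.ext (ha.1.2.trans hb.1.2.symm) hab)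
        obtain ⟨e', he', hn1, hn2⟩ : ∃ e' ∈ K.filter (fun e' => e'.2 = e.2),
            e'.1 ∉ S ∧ f e'.1 ∉ S := by
          by_contra hno
          push Not at hno
          have : K.filter (fun e' => e'.2 = e.2) ⊆
              ((K.filter fun e' => e'.2 = e.2).filter fun e' => e'.1 ∈ S) ∪
              ((K.filter fun e' => e'.2 = e.2).filter fun e' => f e'.1 ∈ S) := by
            intro e' he'
            rw [mem_union]
            by_cases hS' : e'.1 ∈ S
            · exact Or.inl (mem_filter.2 ⟨he', hS'⟩)
            · exact Or.inr (mem_filter.2 ⟨he', hno e' he' hS'⟩)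
          have := (card_le_card this).trans (card_union_le _ _)
          omega
        rw [mem_filter] at he'
        refine ⟨e'.1, ?_, ?_, ?_⟩
        · rw [Finset.disjoint_left]
          intro x hx
          rw [mem_insert, mem_singleton] at hx
          rcases hx with rfl | rfl
          · exact hn1
          · exact hn2
        · simp only [Bool.not_true, cond_false, mem_image]
          exact ⟨e', he'.1, rfl⟩
        · rw [← he'.2]
          exact ⟨(hH e' (hKH he'.1)).1, (hH e' (hKH he'.1)).2.2.2.1⟩)
    false e₀.1 (by simp only [cond_false, mem_image]; exact ⟨e₀, he₀, rfl⟩) (k - 1) (by omega)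
  have hadj : ∀ v ∈ a :: l, G.Adj v (f v) := by
    intro v hv
    obtain ⟨b, hb⟩ := hall v hv
    cases b with
    | false =>
      simp only [cond_false, mem_image] at hb
      obtain ⟨e, he, rfl⟩ := hb
      exact (hH e (hKH he)).2.1
    | true =>
      simp only [cond_true, mem_image] at hb
      obtain ⟨e, he, rfl⟩ := hb
      exact (hH e (hKH he)).2.2.1
  have hsymm : ∀ u ∈ a :: l, ∀ v ∈ a :: l, u ≠ v → Disjoint ({u, f u} : Finset V) {v, f v} := by
    intro u hu v hv huv
    haveI : Std.Symm (fun u v : V => Disjoint ({u, f u} : Finset V) {v, f v}) :=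
      ⟨fun _ _ h => h.symm⟩
    exact List.Pairwise.forall hpw hu hv huv
  have hnd : (a :: l).Nodup := hpw.imp fun {u v} h => by
    rintro rfl
    rw [Finset.disjoint_left] at h
    exact h (mem_insert_self _ _) (mem_insert_self _ _)
  have hnd' : ((a :: l).map f).Nodup := by
    rw [List.nodup_map_iff_inj_on hnd]
    intro u hu v hv huv
    by_contra hne
    have := hsymm u hu v hv hne
    rw [Finset.disjoint_left] at this
    exact this (mem_insert_of_mem (mem_singleton_self _))
      (huv ▸ mem_insert_of_mem (mem_singleton_self _))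
  apply hfree
  refine cycle_of_list ((a :: l) ++ ((a :: l).map f).reverse) ?_ ?_ ?_ (by simp) ?_
  · rw [List.length_append, List.length_reverse, List.length_map, hlen]; omega
  · rw [List.nodup_append]
    refine ⟨hnd, List.nodup_reverse.2 hnd', ?_⟩
    rintro u hu w hw rfl
    rw [List.mem_reverse, List.mem_map] at hw
    obtain ⟨v, hv, rfl⟩ := hw
    by_cases hne : f v = v
    · have := hadj v hv
      rw [hne] at this
      exact this.ne rfl
    · have := hsymm _ hu v hv hne
      rw [Finset.disjoint_left] at this
      exact this (mem_insert_self _ _) (mem_insert_of_mem (mem_singleton_self _))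
  · rw [List.isChain_append]
    refine ⟨hch.imp fun u v h => h.1, ?_, ?_⟩
    · rw [List.isChain_reverse, List.isChain_map]
      exact hch.imp fun u v h => h.2.symm
    · intro x hx y hy
      rw [List.getLast?_eq_some_getLast (by simp), Option.mem_some_iff, hlast] at hx
      rw [List.head?_reverse, List.getLast?_map, List.getLast?_eq_some_getLast (by simp), hlast,
        Option.map_some, Option.mem_some_iff] at hy
      rw [← hx, ← hy]
      exact (hH e₀ (hKH he₀)).2.1
  · have h6 : ((a :: l) ++ ((a :: l).map f).reverse).getLast (by simp) = f a := by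
      rw [List.getLast_append_of_ne_nil _ (by simp)]
      simp
    have h7 : ((a :: l) ++ ((a :: l).map f).reverse).head (by simp) = a := by simp
    rw [h6, h7]
    exact (hadj a (by simp)).symm

/-- The main bound for ordered pairs. -/
theorem card_nice {k : ℕ} (hk : 2 ≤ k) (hfree : (cycleGraph (2 * k)).Free G) (H : Finset (V × V))
    (hH : ∀ e ∈ H, Nice G f e) :
    #H ≤ (2 * k - 2) * (Fintype.card V + (2 * k - 2) * (Fintype.card V +
      (4 * (k - 1)) * (Fintype.card V + Fintype.card V))) := by
  obtain ⟨H₁, hH₁, hinj₁, hc₁⟩ := select H f (2 * k - 2) fun z =>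
    hub hk hfree _ (fun e he => hH e (mem_filter.1 he).1) z fun e he => (mem_filter.1 he).2
  have hH₁' : ∀ e ∈ H₁.image Prod.swap, Nice G f e := by
    intro e he
    rw [mem_image] at he
    obtain ⟨e', he', rfl⟩ := he
    exact (hH e' (hH₁ he')).swap
  obtain ⟨H₂, hH₂, hinj₂, hc₂⟩ := select (H₁.image Prod.swap) f (2 * k - 2) fun z =>
    hub hk hfree _ (fun e he => hH₁' e (mem_filter.1 he).1) z fun e he => (mem_filter.1 he).2
  rw [card_image_of_injective _ Prod.swap_injective] at hc₂
  have hinj₁' : Set.InjOn (fun e : V × V => (e.1, f e.2)) H₂ := by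
    intro a ha b hb hab
    have ha' := hH₂ ha
    have hb' := hH₂ hb
    rw [mem_image] at ha' hb'
    obtain ⟨a', ha', rfl⟩ := ha'
    obtain ⟨b', hb', rfl⟩ := hb'
    exact congrArg _ (hinj₁ ha' hb' hab)
  have hc₃ := ladder hk hfree H₂ (fun e he => hH₁' e (hH₂ he)) hinj₂ hinj₁'
  have h4 : #(H₂.image Prod.fst) ≤ Fintype.card V := card_le_univ _
  have h5 : #(H₂.image Prod.snd) ≤ Fintype.card V := card_le_univ _
  calc #H ≤ _ := hc₁
    _ ≤ _ := Nat.mul_le_mul_left _ (Nat.add_le_add_left (hc₂.trans (Nat.mul_le_mul_left _
        (Nat.add_le_add_left (hc₃.trans (Nat.mul_le_mul_left _ (Nat.add_le_add h4 h5))) _))) _)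

end Pool.Agent.TH602.Turan
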