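import Pool.Agent.TH602.Turan.Post

/-!
# Pairs of Boolean vectors with the same coordinatewise sum

For a family `F` of Boolean vectors closed under a bitwise operation, some pair `(a, b)` has many
pairs `(c, d)` in `F` with `c_q + d_q = a_q + b_q` for all `q`.
-/

set_option autoImplicit false

namespace Pool.Agent.TH602.Turan.Swap

open Finset

variable {J : Type*} [Fintype J] [DecidableEq J]

/-- A greedy form of Turan's theorem for the sets `N q`, `q ∈ Q`. -/
theorem indep (N : J → Finset J) : ∀ (n : ℕ) (T Q : Finset J), T.card = n →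
    (∀ q ∈ Q, 2 ≤ (N q).card ∧ N q ⊆ T) →
    ∃ T', T' ⊆ T ∧ (∀ q ∈ Q, ¬ N q ⊆ T') ∧ T.card ^ 2 ≤ T'.card * (2 * Q.card + T.card) := by
  intro n
  induction n using Nat.strong_induction_on with
  | _ n ih =>
    intro T Q hT hQ
    by_cases hT0 : T = ∅
    · refine ⟨∅, by simp, fun q hq h => ?_, by simp [hT0]⟩
      have h1 := (hQ q hq).1
      have h2 : N q = ∅ := subset_empty.1 h
      rw [h2] at h1
      simp at h1
    obtain ⟨T', hT'm, hmax⟩ := Finset.exists_max_image
      (T.powerset.filter fun S => ∀ q ∈ Q, ¬ N q ⊆ S) Finset.card ⟨∅, by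
        rw [mem_filter]
        refine ⟨by simp, fun q hq h => ?_⟩
        have h1 := (hQ q hq).1
        rw [subset_empty.1 h] at h1
        simp at h1⟩
    rw [mem_filter, mem_powerset] at hT'm
    obtain ⟨hT'T, hT'i⟩ := hT'm
    have hmax' : ∀ S, S ⊆ T → (∀ q ∈ Q, ¬ N q ⊆ S) → S.card ≤ T'.card := fun S h1 h2 =>
      hmax S (by rw [mem_filter, mem_powerset]; exact ⟨h1, h2⟩)
    have hpos : 1 ≤ T'.card := by
      obtain ⟨i, hi⟩ := nonempty_iff_ne_empty.2 hT0
      have := hmax' {i} (by simpa using hi) (fun q hq h => by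
        have h1 := card_le_card h
        have h2 := (hQ q hq).1
        rw [card_singleton] at h1
        omega)
      simpa using this
    -- the blocking sets
    have hbl : ∀ i ∈ T \ T', ∃ q ∈ Q, N q ⊆ insert i T' ∧ i ∈ N q := by
      intro i hi
      rw [mem_sdiff] at hi
      by_contra hcon
      push Not at hcon
      have := hmax' (insert i T') (insert_subset hi.1 hT'T) (fun q hq h => by
        refine hT'i q hq fun x hx => ?_
        rcases mem_insert.1 (h hx) with rfl | h3
        · exact absurd hx (hcon q hq h)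
        · exact h3)
      rw [card_insert_of_notMem hi.2] at this
      omega
    choose! qq hqq using hbl
    set Q1 := Q.filter fun q => N q ⊆ T \ T' with hQ1
    have hinj : Set.InjOn qq (T \ T' : Finset J) := by
      intro i hi j hj hij
      rw [mem_coe] at hi hj
      have h1 := (hqq i hi).2.2
      rw [hij] at h1
      rcases mem_insert.1 ((hqq j hj).2.1 h1) with h | h
      · exact h
      · exact absurd h (mem_sdiff.1 hi).2
    have hcardim : ((T \ T').image qq).card = (T \ T').card := card_image_of_injOn hinj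
    have hdisj : Disjoint ((T \ T').image qq) Q1 := by
      rw [disjoint_left]
      intro q hq hq1
      obtain ⟨i, hi, rfl⟩ := mem_image.1 hq
      have h1 := (mem_filter.1 hq1).2
      obtain ⟨h2, h3, h4⟩ := hqq i hi
      have h5 : N (qq i) ⊆ {i} := by
        intro x hx
        rcases mem_insert.1 (h3 hx) with h | h
        · simpa using h
        · exact absurd h (mem_sdiff.1 (h1 hx)).2
      have h6 := card_le_card h5
      rw [card_singleton] at h6
      have := (hQ _ h2).1
      omega
    have hcard : (T \ T').card + Q1.card ≤ Q.card := by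
      rw [← hcardim, ← card_union_of_disjoint hdisj]
      apply card_le_card
      apply union_subset
      · intro q hq
        obtain ⟨i, hi, rfl⟩ := mem_image.1 hq
        exact (hqq i hi).1
      · exact filter_subset _ _
    have hsd : (T \ T').card + T'.card = T.card := card_sdiff_add_card_eq_card hT'T
    obtain ⟨T2, h21, h22, h23⟩ := ih (T \ T').card (by omega) (T \ T') Q1 rfl (fun q hq => by
      rw [hQ1, mem_filter] at hq
      exact ⟨(hQ q hq.1).1, hq.2⟩)
    have h24 : T2.card ≤ T'.card := hmax' T2 (h21.trans sdiff_subset) (fun q hq h =>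
      h22 q (by rw [hQ1, mem_filter]; exact ⟨hq, h.trans h21⟩) h)
    refine ⟨T', hT'T, hT'i, ?_⟩
    rw [← hsd]
    generalize (T \ T').card = d at *
    generalize T'.card = t at *
    generalize Q.card = e at *
    generalize Q1.card = e1 at *
    have h3 : T2.card * (2 * e1 + d) ≤ t * (2 * e1 + d) := Nat.mul_le_mul_right _ h24
    have h4 : t * (2 * (d + e1) + (d + t)) ≤ t * (2 * e + (d + t)) :=
      Nat.mul_le_mul_left _ (by omega)
    nlinarith

/-- The number of pairs in `F` with the same coordinatewise sum as `(a, b)`. -/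
noncomputable def reps (F : Finset (J → Bool)) (a b : J → Bool) : ℕ :=
  ((F ×ˢ F).filter fun p => ∀ q, (p.1 q).toNat + (p.2 q).toNat = (a q).toNat + (b q).toNat).card

theorem reps_le_of_inj (F : Finset (J → Bool)) (a b : J → Bool) {α : Type*} [Finite α]
    (φ : (J → Bool) × (J → Bool) → α → Prop)
    (h1 : ∀ p : (J → Bool) × (J → Bool), p.1 ∈ F → p.2 ∈ F →
      (∀ q, (p.1 q).toNat + (p.2 q).toNat = (a q).toNat + (b q).toNat) → ∃ y, φ p y)
    (h2 : ∀ p p' y, φ p y → φ p' y → p = p') : reps F a b ≤ Nat.card α := by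
  classical
  have := Fintype.ofFinite α
  have h3 : ∀ p : {p : (J → Bool) × (J → Bool) // p ∈ ((F ×ˢ F).filter fun p =>
      ∀ q, (p.1 q).toNat + (p.2 q).toNat = (a q).toNat + (b q).toNat)}, ∃ y, φ p.1 y := by
    rintro ⟨p, hp⟩
    rw [mem_filter, mem_product] at hp
    exact h1 p hp.1.1 hp.1.2 hp.2
  choose ψ hψ using h3
  rw [reps, ← Nat.card_eq_finsetCard]
  apply Nat.card_le_card_of_injective ψ
  intro p p' h
  apply Subtype.ext
  refine h2 _ _ _ (hψ p) ?_
  rw [h]
  exact hψ p'

/-- Families closed under intersections that shatter a set of size `s`. -/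
theorem cube (𝒜 : Finset (Finset J)) (h𝒜 : ∀ x ∈ 𝒜, ∀ y ∈ 𝒜, x ∩ y ∈ 𝒜) (T : Finset J)
    (hT : 𝒜.Shatters T) :
    ∃ (T' : Finset J) (w : Finset J → Finset J), T.card ^ 2 ≤ T'.card * (2 * Fintype.card J) ∧
      (∀ S, S ⊆ T' → w S ∈ 𝒜) ∧ (∀ S, S ⊆ T' → ∀ i ∈ T', i ∈ w S ↔ i ∉ S) ∧
      (∀ S, S ⊆ T' → ∀ q, (q ∈ w S ∧ q ∈ w (T' \ S)) ↔ (q ∈ w ∅ ∧ q ∈ w T')) ∧
      (∀ S, S ⊆ T' → ∀ q, (q ∈ w S ∨ q ∈ w (T' \ S)) ↔ (q ∈ w ∅ ∨ q ∈ w T')) := by
  obtain ⟨u, hu, hTu⟩ := hT.exists_superset
  have hc : ∀ i ∈ T, ∃ c ∈ 𝒜, T ∩ c = T.erase i := fun i _ => hT (erase_subset i T)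
  choose! c hc𝒜 hcT using hc
  -- finite intersections
  have hw : ∀ S : Finset J, S ⊆ T → (u.filter fun q => ∀ i ∈ S, q ∈ c i) ∈ 𝒜 := by
    intro S
    induction S using Finset.induction_on with
    | empty =>
      intro _
      have : (u.filter fun q => ∀ i ∈ (∅ : Finset J), q ∈ c i) = u := by
        rw [filter_eq_self]; simp
      rw [this]; exact hu
    | insert i S hi ih =>
      intro hS
      have h1 := ih (fun x hx => hS (mem_insert_of_mem hx))
      have h2 := h𝒜 _ h1 _ (hc𝒜 i (hS (mem_insert_self i S)))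
      have h3 : (u.filter fun q => ∀ j ∈ insert i S, q ∈ c j) =
          (u.filter fun q => ∀ j ∈ S, q ∈ c j) ∩ c i := by
        ext q
        simp only [mem_filter, mem_inter, mem_insert, forall_eq_or_imp]
        tauto
      rw [h3]; exact h2
  set N : J → Finset J := fun q => T.filter fun i => q ∉ c i with hN
  have hNT : ∀ q ∈ T, ∀ i ∈ T, q ∉ c i → i = q := by
    intro q hq i hi h
    by_contra hne
    have : q ∈ T.erase i := mem_erase.2 ⟨fun h => hne h.symm, hq⟩
    rw [← hcT i hi, mem_inter] at this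
    exact h this.2
  have hself : ∀ i ∈ T, i ∉ c i := by
    intro i hi h
    have : i ∈ T.erase i := by rw [← hcT i hi, mem_inter]; exact ⟨hi, h⟩
    simp at this
  obtain ⟨T', hT'T, hind, hcard⟩ := indep N T.card T (univ.filter fun q => 2 ≤ (N q).card) rfl
    (fun q hq => ⟨(mem_filter.1 hq).2, filter_subset _ _⟩)
  have hQ : (univ.filter fun q => 2 ≤ (N q).card).card + T.card ≤ Fintype.card J := by
    rw [← card_union_of_disjoint, ← card_univ]
    · exact card_le_card (subset_univ _)
    · rw [disjoint_left]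
      intro q hq hqT
      have h1 := (mem_filter.1 hq).2
      have h2 : N q ⊆ {q} := by
        intro i hi
        rw [hN, mem_filter] at hi
        simpa using hNT q hqT i hi.1 hi.2
      have := card_le_card h2
      rw [card_singleton] at this
      omega
  refine ⟨T', fun S => u.filter fun q => ∀ i ∈ (T \ T') ∪ S, q ∈ c i, ?_, ?_, ?_, ?_, ?_⟩
  · refine hcard.trans (Nat.mul_le_mul_left _ (by omega))
  · intro S hS
    exact hw _ (union_subset sdiff_subset (hS.trans hT'T))
  · intro S hS i hi
    simp only [mem_filter]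
    constructor
    · rintro ⟨_, h⟩ hiS
      exact hself i (hT'T hi) (h i (mem_union_right _ hiS))
    · intro hiS
      refine ⟨hTu (hT'T hi), fun j hj => ?_⟩
      by_contra hcon
      have hjT : j ∈ T := by
        rcases mem_union.1 hj with h | h
        · exact (mem_sdiff.1 h).1
        · exact hT'T (hS h)
      have hji := hNT i (hT'T hi) j hjT hcon
      subst hji
      rcases mem_union.1 hj with h | h
      · exact (mem_sdiff.1 h).2 hi
      · exact hiS h
  · intro S hS q
    simp only [mem_filter, mem_union, mem_sdiff]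
    constructor
    · rintro ⟨⟨h1, h2⟩, -, h3⟩
      refine ⟨⟨h1, fun i hi => ?_⟩, h1, fun i hi => ?_⟩
      · rcases hi with hi | hi
        · exact h2 i (Or.inl hi)
        · simp at hi
      · rcases hi with hi | hi
        · exact h2 i (Or.inl hi)
        · by_cases hiS : i ∈ S
          · exact h2 i (Or.inr hiS)
          · exact h3 i (Or.inr ⟨hi, hiS⟩)
    · rintro ⟨⟨h1, h2⟩, -, h3⟩
      refine ⟨⟨h1, fun i hi => ?_⟩, h1, fun i hi => ?_⟩
      · rcases hi with hi | hi
        · exact h2 i (Or.inl hi)
        · exact h3 i (Or.inr (hS hi))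
      · rcases hi with hi | hi
        · exact h2 i (Or.inl hi)
        · exact h3 i (Or.inr hi.1)
  · intro S hS q
    simp only [mem_filter, mem_union, mem_sdiff]
    constructor
    · rintro (⟨h1, h2⟩ | ⟨h1, h2⟩)
      · refine Or.inl ⟨h1, fun i hi => ?_⟩
        rcases hi with hi | hi
        · exact h2 i (Or.inl hi)
        · simp at hi
      · refine Or.inl ⟨h1, fun i hi => ?_⟩
        rcases hi with hi | hi
        · exact h2 i (Or.inl hi)
        · simp at hi
    · intro h
      have h' : q ∈ u ∧ ∀ i, i ∈ T ∧ i ∉ T' → q ∈ c i := by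
        rcases h with ⟨h1, h2⟩ | ⟨h1, h2⟩
        · exact ⟨h1, fun i hi => h2 i (Or.inl hi)⟩
        · exact ⟨h1, fun i hi => h2 i (Or.inl hi)⟩
      obtain ⟨hqu, hq⟩ := h'
      by_contra hcon
      push Not at hcon
      obtain ⟨hA, hB⟩ := hcon
      obtain ⟨i, hi, hi'⟩ := hA hqu
      obtain ⟨j, hj, hj'⟩ := hB hqu
      have hiS : i ∈ S := by
        rcases hi with hi | hi
        · exact absurd (hq i hi) hi'
        · exact hi
      have hjS : j ∈ T' ∧ j ∉ S := by
        rcases hj with hj | hj
        · exact absurd (hq j hj) hj'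
        · exact hj
      have hij : i ≠ j := fun h => hjS.2 (h ▸ hiS)
      have hiN : i ∈ N q := by rw [hN, mem_filter]; exact ⟨hT'T (hS hiS), hi'⟩
      have hjN : j ∈ N q := by rw [hN, mem_filter]; exact ⟨hT'T hjS.1, hj'⟩
      have h2 : 2 ≤ (N q).card := by
        have : ({i, j} : Finset J) ⊆ N q := by
          intro x hx
          rcases mem_insert.1 hx with rfl | hx
          · exact hiN
          · rw [mem_singleton] at hx; rw [hx]; exact hjN
        have := card_le_card this
        rwa [card_pair hij] at this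
      have h3 := hind q (by rw [mem_filter]; exact ⟨mem_univ _, h2⟩)
      apply h3
      intro l hl
      rw [hN, mem_filter] at hl
      by_contra hlT'
      exact hl.2 (hq l ⟨hl.1, hlT'⟩)

/-- The operation with value `b` where the arguments disagree. -/
def meetAt (b x y : J → Bool) : J → Bool := fun j => if x j = y j then x j else b j

theorem reps_cube (F : Finset (J → Bool)) (b : J → Bool) (hF : ∀ x ∈ F, ∀ y ∈ F, meetAt b x y ∈ F)
    (s : ℕ) (hs : ∑ i ∈ range s, (Fintype.card J).choose i < F.card) :
    ∃ x ∈ F, ∃ y ∈ F, 2 ^ (s ^ 2 / (2 * Fintype.card J)) ≤ reps F x y := by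
  classical
  set D : (J → Bool) → Finset J := fun x => univ.filter fun j => x j ≠ b j with hD
  set E : Finset J → J → Bool := fun A j => if j ∈ A then !(b j) else b j with hE
  have hDE : ∀ A, D (E A) = A := by
    intro A
    ext j
    simp only [hD, hE, mem_filter, mem_univ, true_and]
    by_cases h : j ∈ A <;> simp [h]
  have hED : ∀ x, E (D x) = x := by
    intro x
    funext j
    simp only [hD, hE, mem_filter, mem_univ, true_and]
    by_cases h : x j = b j
    · simp [h]
    · have : (!b j) = x j := by revert h; cases x j <;> cases b j <;> simp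
      simp [h, this]
  have hDinj : Function.Injective D := fun x y h => by rw [← hED x, h, hED]
  set 𝒜 := F.image D with h𝒜
  have hcl : ∀ x ∈ 𝒜, ∀ y ∈ 𝒜, x ∩ y ∈ 𝒜 := by
    intro x hx y hy
    obtain ⟨x, hx', rfl⟩ := mem_image.1 hx
    obtain ⟨y, hy', rfl⟩ := mem_image.1 hy
    refine mem_image.2 ⟨meetAt b x y, hF x hx' y hy', ?_⟩
    have key : ∀ p q r : Bool, ((if p = q then p else r) ≠ r) ↔ (p ≠ r ∧ q ≠ r) := by decide
    ext j
    rw [mem_inter, mem_filter, mem_filter, mem_filter]
    have := key (x j) (y j) (b j)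
    simp only [mem_univ, true_and]
    exact this
  have hcard : 𝒜.card = F.card := card_image_of_injective F hDinj
  -- Sauer-Shelah
  have hvc : s ≤ 𝒜.vcDim := by
    by_contra hlt
    push Not at hlt
    have h1 := (card_le_card_shatterer 𝒜).trans (card_shatterer_le_sum_vcDim (𝒜 := 𝒜))
    have h2 : ∑ k ∈ Iic 𝒜.vcDim, (Fintype.card J).choose k ≤
        ∑ i ∈ range s, (Fintype.card J).choose i := by
      apply sum_le_sum_of_subset
      intro k hk
      rw [mem_Iic] at hk
      rw [mem_range]
      omega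
    omega
  have hne : 𝒜.shatterer.Nonempty := by
    refine ⟨∅, ?_⟩
    rw [mem_shatterer, shatters_empty, ← card_pos, hcard]
    omega
  obtain ⟨T, hTsh, hTcard⟩ : ∃ T, 𝒜.Shatters T ∧ s ≤ T.card := by
    obtain ⟨T, hT1, hT2⟩ := exists_mem_eq_sup 𝒜.shatterer hne card
    refine ⟨T, mem_shatterer.1 hT1, ?_⟩
    have : 𝒜.vcDim = T.card := hT2
    omega
  obtain ⟨T', w, hbig, hw1, hw2, hw3, hw4⟩ := cube 𝒜 hcl T hTsh
  have hmemF : ∀ S, S ⊆ T' → E (w S) ∈ F := by
    intro S hS
    obtain ⟨x, hx, hx'⟩ := mem_image.1 (hw1 S hS)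
    rw [← hx', hED]
    exact hx
  refine ⟨E (w ∅), hmemF _ (empty_subset _), E (w T'), hmemF _ subset_rfl, ?_⟩
  have hle : s ^ 2 / (2 * Fintype.card J) ≤ T'.card := by
    apply Nat.div_le_of_le_mul
    calc s ^ 2 ≤ T.card ^ 2 := Nat.pow_le_pow_left hTcard 2
      _ ≤ T'.card * (2 * Fintype.card J) := hbig
      _ = 2 * Fintype.card J * T'.card := by ring
  refine (Nat.pow_le_pow_right (by norm_num) hle).trans ?_
  rw [← card_powerset]
  apply card_le_card_of_injOn (fun S => (E (w S), E (w (T' \ S))))
  · intro S hS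
    rw [mem_coe, mem_powerset] at hS
    rw [mem_coe, mem_filter, mem_product]
    refine ⟨⟨hmemF S hS, hmemF _ sdiff_subset⟩, fun q => ?_⟩
    have h3 := hw3 S hS q
    have h4 := hw4 S hS q
    simp only [hE]
    by_cases p1 : q ∈ w S <;> by_cases p2 : q ∈ w (T' \ S) <;> by_cases p3 : q ∈ w ∅ <;>
      by_cases p4 : q ∈ w T' <;> simp only [p1, p2, p3, p4, if_true, if_false] <;>
      simp [p1, p2, p3, p4] at h3 h4 <;> omega
  · intro S hS S' hS' h
    rw [mem_coe, mem_powerset] at hS hS'
    simp only [Prod.mk.injEq] at h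
    have h1 : w S = w S' := by rw [← hDE (w S), h.1, hDE]
    ext i
    by_cases hi : i ∈ T'
    · have h2 := hw2 S hS i hi
      have h3 := hw2 S' hS' i hi
      rw [h1] at h2
      tauto
    · exact ⟨fun h => absurd (hS h) hi, fun h => absurd (hS' h) hi⟩

/-- The sum of three vectors. -/
def sum3 (x y z : J → Bool) : J → Bool := fun j => xor (xor (x j) (y j)) (z j)

section affine

variable (F : Finset (J → Bool)) (a : J → Bool)

/-- The members of `F` that agree with `a` on `S`. -/
def agree (S : Finset J) : Finset (J → Bool) := F.filter fun c => ∀ q ∈ S, c q = a q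

variable {F a}

theorem card_agree (ha : a ∈ F) (hF : ∀ x ∈ F, ∀ y ∈ F, ∀ z ∈ F, sum3 x y z ∈ F) (S : Finset J) :
    F.card ≤ 2 ^ S.card * (agree F a S).card := by
  rw [mul_comm, ← card_powerset]
  apply card_le_mul_card_image_of_maps_to (f := fun c : J → Bool => S.filter fun q => c q = true)
  · intro c _
    rw [mem_powerset]
    exact filter_subset _ _
  · intro B _
    by_cases hne : (F.filter fun c => (S.filter fun q => c q = true) = B).Nonempty
    · obtain ⟨c0, hc0⟩ := hne
      rw [mem_filter] at hc0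
      apply card_le_card_of_injOn (fun c => sum3 c c0 a)
      · intro c hc
        rw [mem_coe, mem_filter] at hc
        rw [mem_coe, agree, mem_filter]
        refine ⟨hF c hc.1 c0 hc0.1 a ha, fun q hq => ?_⟩
        have h1 : q ∈ (S.filter fun q => c q = true) ↔ q ∈ (S.filter fun q => c0 q = true) := by
          rw [hc.2, hc0.2]
        simp only [mem_filter, hq, true_and] at h1
        have h2 : c q = c0 q := by
          revert h1; cases c q <;> cases c0 q <;> simp
        simp [sum3, h2]
      · intro c _ c' _ h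
        funext q
        have h1 := congrFun h q
        simp only [sum3] at h1
        revert h1
        cases c q <;> cases c' q <;> cases c0 q <;> cases a q <;> simp
    · rw [not_nonempty_iff_eq_empty] at hne
      rw [hne]; simp

theorem sum_agree (ha : a ∈ F) (hF : ∀ x ∈ F, ∀ y ∈ F, ∀ z ∈ F, sum3 x y z ∈ F) :
    F.card * 3 ^ Fintype.card J ≤ 2 ^ Fintype.card J * ∑ U : Finset J, (agree F a U).card := by
  have h3 : (3 : ℕ) ^ Fintype.card J = ∑ U : Finset J, 2 ^ (Fintype.card J - U.card) := by
    have := Finset.sum_pow_mul_eq_add_pow (1 : ℕ) 2 (univ : Finset J)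
    rw [powerset_univ, card_univ] at this
    simpa using this.symm
  rw [h3, mul_sum, mul_sum]
  apply sum_le_sum
  intro U _
  have hU : U.card ≤ Fintype.card J := card_le_univ U
  have h2 : (2 : ℕ) ^ Fintype.card J = 2 ^ (Fintype.card J - U.card) * 2 ^ U.card := by
    rw [← pow_add]; congr 1; omega
  rw [h2, mul_assoc, mul_comm]
  exact Nat.mul_le_mul_left _ (card_agree ha hF U)

theorem reps_affine (ha : a ∈ F) (hF : ∀ x ∈ F, ∀ y ∈ F, ∀ z ∈ F, sum3 x y z ∈ F) :
    ∃ b ∈ F, F.card * 3 ^ Fintype.card J ≤ 4 ^ Fintype.card J * reps F a b := by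
  classical
  set Ne : (J → Bool) → Finset J := fun c => univ.filter fun q => c q ≠ a q with hNe
  set P := (F ×ˢ F).filter fun p => ∀ q, p.1 q ≠ a q → p.2 q = a q with hP
  have hPc : P.card = ∑ c ∈ F, (agree F a (Ne c)).card := by
    rw [hP, card_filter, sum_product]
    apply sum_congr rfl
    intro c _
    rw [agree, card_filter]
    apply sum_congr rfl
    intro d _
    simp [hNe]
  have h1 : F.card * ∑ U : Finset J, (agree F a U).card ≤ 2 ^ Fintype.card J * P.card := by
    have h2 : ∑ U : Finset J, (agree F a U).card =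
        ∑ c ∈ F, 2 ^ (Fintype.card J - (Ne c).card) := by
      simp only [agree, card_filter]
      rw [sum_comm]
      apply sum_congr rfl
      intro c _
      rw [← card_filter]
      have : (univ.filter fun U : Finset J => ∀ q ∈ U, c q = a q) = ((Ne c)ᶜ).powerset := by
        ext U
        rw [mem_filter, mem_powerset]
        constructor
        · rintro ⟨_, h⟩ q hq
          rw [mem_compl, hNe, mem_filter]
          rintro ⟨_, h'⟩
          exact h' (h q hq)
        · intro h
          refine ⟨mem_univ _, fun q hq => ?_⟩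
          have := h hq
          rw [mem_compl, hNe, mem_filter] at this
          by_contra hcon
          exact this ⟨mem_univ _, hcon⟩
      rw [this, card_powerset, card_compl]
    rw [h2, hPc, mul_sum, mul_sum]
    apply sum_le_sum
    intro c _
    have hU : (Ne c).card ≤ Fintype.card J := card_le_univ _
    have h3 : (2 : ℕ) ^ Fintype.card J = 2 ^ (Fintype.card J - (Ne c).card) * 2 ^ (Ne c).card := by
      rw [← pow_add]; congr 1; omega
    rw [h3, mul_assoc, mul_comm]
    exact Nat.mul_le_mul_left _ (card_agree ha hF _)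
  have h4 : F.card * F.card * 3 ^ Fintype.card J ≤ 4 ^ Fintype.card J * P.card := by
    have h5 := Nat.mul_le_mul_left F.card (sum_agree ha hF)
    have h6 := Nat.mul_le_mul_left (2 ^ Fintype.card J) h1
    have h7 : (4 : ℕ) ^ Fintype.card J = 2 ^ Fintype.card J * 2 ^ Fintype.card J := by
      rw [← mul_pow]; norm_num
    rw [h7]
    calc F.card * F.card * 3 ^ Fintype.card J = F.card * (F.card * 3 ^ Fintype.card J) := by ring
      _ ≤ _ := h5
      _ = 2 ^ Fintype.card J * (F.card * ∑ U : Finset J, (agree F a U).card) := by ring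
      _ ≤ _ := h6
      _ = _ := by ring
  by_contra hcon
  push Not at hcon
  have hmaps : ∀ p ∈ P, sum3 a p.1 p.2 ∈ F := by
    intro p hp
    rw [hP, mem_filter, mem_product] at hp
    exact hF a ha _ hp.1.1 _ hp.1.2
  have h5 : P.card = ∑ b ∈ F, (P.filter fun p => sum3 a p.1 p.2 = b).card :=
    card_eq_sum_card_fiberwise hmaps
  have h6 : ∀ b ∈ F, (P.filter fun p => sum3 a p.1 p.2 = b).card ≤ reps F a b := by
    intro b _
    apply card_le_card
    intro p hp
    rw [mem_filter, hP, mem_filter] at hp
    rw [mem_filter]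
    refine ⟨hp.1.1, fun q => ?_⟩
    have h7 := hp.1.2 q
    have h8 : xor (xor (a q) (p.1 q)) (p.2 q) = b q := congrFun hp.2 q
    rw [← h8]
    revert h7
    cases a q <;> cases p.1 q <;> cases p.2 q <;> simp
  have h7 : 4 ^ Fintype.card J * P.card < F.card * F.card * 3 ^ Fintype.card J := by
    rw [h5, mul_sum]
    calc ∑ b ∈ F, 4 ^ Fintype.card J * (P.filter fun p => sum3 a p.1 p.2 = b).card
        < ∑ _b ∈ F, F.card * 3 ^ Fintype.card J := by
          apply sum_lt_sum_of_nonempty ⟨a, ha⟩
          intro b hb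
          exact (Nat.mul_le_mul_left _ (h6 b hb)).trans_lt (hcon b hb)
      _ = F.card * F.card * 3 ^ Fintype.card J := by
          rw [sum_const, smul_eq_mul]; ring
  omega

end affine

end Pool.Agent.TH602.Turan.Swap
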